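import Mathlib

/-!
Relevance-sensitive truth-trees: formulae, branches, traces, parity, strengthened parity.
-/

namespace Pool.Agent.Lib.MP_b8bcd1_lc

/-- Formulae built from sentence letters. -/
inductive Fm where
  | letter (n : ℕ)
  | neg (a : Fm)
  | conj (a b : Fm)
  | disj (a b : Fm)
  | imp (a b : Fm)
  deriving DecidableEq

/-- A node: its formula, the positions on its branch (the root has position `0`) of the nodes from
which it was obtained, and, for a critical node, the position of its partner. -/
structure Node where
  fm : Fm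
  src : List ℕ
  partner : Option ℕ

/-- One step without forking on a branch (a list of nodes, root first). The set `X` is the set of
formulae which the recursive rule may use (`X = ∅`: no recursive rule). -/
inductive Step (X : Set Fm) : List Node → List Node → Prop where
  | conj (B : List Node) (i : ℕ) (n : Node) (a b : Fm) (hi : B[i]? = some n)
      (hn : n.fm = Fm.conj a b) : Step X B (B ++ [⟨a, [i], none⟩, ⟨b, [i], none⟩])
  | negDisj (B : List Node) (i : ℕ) (n : Node) (a b : Fm) (hi : B[i]? = some n)
      (hn : n.fm = Fm.neg (Fm.disj a b)) :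
      Step X B (B ++ [⟨Fm.neg a, [i], none⟩, ⟨Fm.neg b, [i], none⟩])
  | negNeg (B : List Node) (i : ℕ) (n : Node) (a : Fm) (hi : B[i]? = some n)
      (hn : n.fm = Fm.neg (Fm.neg a)) : Step X B (B ++ [⟨a, [i], none⟩])
  | modusPonens (B : List Node) (i j : ℕ) (n m : Node) (b : Fm) (hi : B[i]? = some n)
      (hj : B[j]? = some m) (hm : m.fm = Fm.imp n.fm b) : Step X B (B ++ [⟨b, [i, j], none⟩])
  | counterCase (B : List Node) (i : ℕ) (n : Node) (a b : Fm) (hi : B[i]? = some n)
      (hn : n.fm = Fm.neg (Fm.imp a b)) :
      Step X B (B ++ [⟨a, [i], some (B.length + 1)⟩, ⟨Fm.neg b, [i], some B.length⟩])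
  | recursive (B : List Node) (i : ℕ) (n : Node) (b : Fm) (hi : B[i]? = some n)
      (hX : Fm.imp n.fm b ∈ X) : Step X B (B ++ [⟨b, [i], none⟩])

/-- A fork of a branch into two branches. -/
inductive Fork : List Node → List Node → List Node → Prop where
  | negConj (B : List Node) (i : ℕ) (n : Node) (a b : Fm) (hi : B[i]? = some n)
      (hn : n.fm = Fm.neg (Fm.conj a b)) :
      Fork B (B ++ [⟨Fm.neg a, [i], none⟩]) (B ++ [⟨Fm.neg b, [i], none⟩])
  | disj (B : List Node) (i : ℕ) (n : Node) (a b : Fm) (hi : B[i]? = some n)
      (hn : n.fm = Fm.disj a b) : Fork B (B ++ [⟨a, [i], none⟩]) (B ++ [⟨b, [i], none⟩])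

/-- `TreeFrom X Q B`: the branch `B` can be continued to a finite truth-tree (with recursive rule
for the formulae in `X`) all of whose complete branches have the property `Q`. -/
inductive TreeFrom (X : Set Fm) (Q : List Node → Prop) : List Node → Prop where
  | leaf (B : List Node) (h : Q B) : TreeFrom X Q B
  | step (B B' : List Node) (h : Step X B B') (h' : TreeFrom X Q B') : TreeFrom X Q B
  | fork (B B₁ B₂ : List Node) (h : Fork B B₁ B₂) (h₁ : TreeFrom X Q B₁)
      (h₂ : TreeFrom X Q B₂) : TreeFrom X Q B

/-- `InTrace B i k`: the node at position `k` is in the trace of the node at position `i`. -/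
inductive InTrace (B : List Node) (i : ℕ) : ℕ → Prop where
  | self : InTrace B i i
  | step (j k : ℕ) (n : Node) (hj : InTrace B i j) (hn : B[j]? = some n) (hk : k ∈ n.src) :
      InTrace B i k

/-- The nodes at the positions `i` and `j` of `B` form a crash-pair. -/
def CrashPair (B : List Node) (i j : ℕ) : Prop :=
  ∃ n m : Node, B[i]? = some n ∧ B[j]? = some m ∧ m.fm = Fm.neg n.fm

/-- Parity: `B` carries a crash-pair such that every critical node `c` of `B` lies in its trace
exactly when the partner of `c` does. -/
def Parity (B : List Node) : Prop :=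
  ∃ i j, CrashPair B i j ∧ ∀ (c d : ℕ) (n : Node), B[c]? = some n → n.partner = some d →
    ((InTrace B i c ∨ InTrace B j c) ↔ (InTrace B i d ∨ InTrace B j d))

/-- Strengthened parity: `B` carries a crash-pair whose trace contains every critical node of `B`
and its partner. -/
def StrongParity (B : List Node) : Prop :=
  ∃ i j, CrashPair B i j ∧ ∀ (c d : ℕ) (n : Node), B[c]? = some n → n.partner = some d →
    ((InTrace B i c ∨ InTrace B j c) ∧ (InTrace B i d ∨ InTrace B j d))

/-- The formula `φ` has a truth-tree (with recursive rule for the formulae in `X`) all of whose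
branches have the property `Q`. -/
def HasTree (X : Set Fm) (Q : List Node → Prop) (φ : Fm) : Prop :=
  TreeFrom X Q [⟨Fm.neg φ, [], none⟩]

/-- Directly acceptable formulae. -/
def DA : Set Fm := {φ | HasTree ∅ Parity φ}

/-- The variant of `DA` with strengthened parity. -/
def DAs : Set Fm := {φ | HasTree ∅ StrongParity φ}

/-- Acceptable formulae: the least set of formulae `X` such that `φ ∈ X` whenever `φ` has a tree
with parity and recursive rule for `X`. -/
def Acc : Set Fm := {φ | ∀ X : Set Fm, (∀ ψ, HasTree X Parity ψ → ψ ∈ X) → φ ∈ X}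

/-- The variant of `Acc` with strengthened parity. -/
def Accs : Set Fm := {φ | ∀ X : Set Fm, (∀ ψ, HasTree X StrongParity ψ → ψ ∈ X) → φ ∈ X}

end Pool.Agent.Lib.MP_b8bcd1_lc
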