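import Mathlib
import Pool.Agent.Lib.MP_b8bcd1_lc.Defs

/-!
A formula which has a truth-tree with parity but none with strengthened parity.
-/

namespace Pool.Agent.Lib.MP_b8bcd1_lc

open Fm

/-! ### traces -/

lemma InTrace.trans' {B : List Node} {i k l : ℕ} {n : Node} (hi : B[i]? = some n)
    (hk : k ∈ n.src) (h : InTrace B k l) : InTrace B i l := by
  induction h with
  | self => exact InTrace.step i k n InTrace.self hi hk
  | step j k' m _ hm hk' ih => exact InTrace.step j k' m ih hm hk'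

lemma InTrace.mem_of_closed {B : List Node} {i k : ℕ} (C : List ℕ) (hi : i ∈ C)
    (hC : ∀ j ∈ C, ∀ n, B[j]? = some n → ∀ k ∈ n.src, k ∈ C) (h : InTrace B i k) : k ∈ C := by
  induction h with
  | self => exact hi
  | step j k n _ hn hk ih => exact hC j ih n hn k hk

/-! ### the formula -/

/-- sentence letters -/
def lp : Fm := letter 0
def lb : Fm := letter 1
def lq : Fm := letter 2
def ld : Fm := letter 3
def lz : Fm := letter 4

/-- `¬((p ∨ b) → b)` -/
def P1 : Fm := neg (imp (disj lp lb) lb)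
/-- `¬((q ∨ d) → d)` -/
def P2 : Fm := neg (imp (disj lq ld) ld)
/-- `p → (q → z)` -/
def P3 : Fm := imp lp (imp lq lz)
/-- `¬b → (¬d → ¬z)` -/
def P4 : Fm := imp (neg lb) (imp (neg ld) (neg lz))
/-- The conjunction of the four premises. -/
def PP : Fm := conj P1 (conj P2 (conj P3 P4))

/-! ### the tree with parity -/

/-- nodes `0 … 7` -/
def stem : List Node :=
  [⟨neg (neg PP), [], none⟩, ⟨PP, [0], none⟩, ⟨P1, [1], none⟩, ⟨conj P2 (conj P3 P4), [1], none⟩,
   ⟨P2, [3], none⟩, ⟨conj P3 P4, [3], none⟩, ⟨P3, [5], none⟩, ⟨P4, [5], none⟩]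

/-- nodes `0 … 9` -/
def stem1 : List Node := stem ++ [⟨disj lp lb, [2], some 9⟩, ⟨neg lb, [2], some 8⟩]

/-- nodes `0 … 12` -/
def stem2 : List Node := stem1 ++ [⟨lp, [8], none⟩] ++
  [⟨disj lq ld, [4], some 12⟩, ⟨neg ld, [4], some 11⟩]

/-- nodes `0 … 17` -/
def last : List Node := stem2 ++ [⟨lq, [11], none⟩] ++ [⟨imp lq lz, [10, 6], none⟩] ++
  [⟨lz, [13, 14], none⟩] ++ [⟨imp (neg ld) (neg lz), [9, 7], none⟩] ++ [⟨neg lz, [12, 16], none⟩]

lemma mem_DA : neg PP ∈ DA := by
  change TreeFrom ∅ Parity [⟨neg (neg PP), [], none⟩]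
  refine .step _ _ (.negNeg _ 0 _ PP rfl rfl) ?_
  refine .step _ _ (.conj _ 1 _ P1 (conj P2 (conj P3 P4)) rfl rfl) ?_
  refine .step _ _ (.conj _ 3 _ P2 (conj P3 P4) rfl rfl) ?_
  refine .step _ _ (.conj _ 5 _ P3 P4 rfl rfl) ?_
  change TreeFrom ∅ Parity stem
  refine .step _ _ (.counterCase _ 2 _ (disj lp lb) lb rfl rfl) ?_
  change TreeFrom ∅ Parity stem1
  refine .fork _ _ _ (.disj _ 8 _ lp lb rfl rfl) ?_ ?_
  · -- the branch `p`
    refine .step _ _ (.counterCase _ 4 _ (disj lq ld) ld rfl rfl) ?_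
    change TreeFrom ∅ Parity stem2
    refine .fork _ _ _ (.disj _ 11 _ lq ld rfl rfl) ?_ ?_
    · -- the branch `q`
      refine .step _ _ (.modusPonens _ 10 6 ⟨lp, [8], none⟩ ⟨P3, [5], none⟩ (imp lq lz)
        rfl rfl rfl) ?_
      refine .step _ _ (.modusPonens _ 13 14 ⟨lq, [11], none⟩ ⟨imp lq lz, [10, 6], none⟩ lz
        rfl rfl rfl) ?_
      refine .step _ _ (.modusPonens _ 9 7 ⟨neg lb, [2], some 8⟩ ⟨P4, [5], none⟩
        (imp (neg ld) (neg lz)) rfl rfl rfl) ?_
      refine .step _ _ (.modusPonens _ 12 16 ⟨neg ld, [4], some 11⟩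
        ⟨imp (neg ld) (neg lz), [9, 7], none⟩ (neg lz) rfl rfl rfl) ?_
      change TreeFrom ∅ Parity last
      refine .leaf _ ⟨15, 17, ⟨⟨lz, [13, 14], none⟩, ⟨neg lz, [12, 16], none⟩, rfl, rfl, rfl⟩, ?_⟩
      have t8 : InTrace last 15 8 :=
        (InTrace.trans' (k := 14) rfl (by decide) (InTrace.trans' (k := 10) rfl (by decide)
          (InTrace.trans' (k := 8) rfl (by decide) .self)))
      have t9 : InTrace last 17 9 :=
        (InTrace.trans' (k := 16) rfl (by decide) (InTrace.trans' (k := 9) rfl (by decide) .self))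
      have t11 : InTrace last 15 11 :=
        (InTrace.trans' (k := 13) rfl (by decide) (InTrace.trans' (k := 11) rfl (by decide) .self))
      have t12 : InTrace last 17 12 := InTrace.trans' (k := 12) rfl (by decide) .self
      intro c d n hc hd
      have hlt : c < 18 := by
        have := (List.getElem?_eq_some_iff.mp hc).1
        exact this
      interval_cases c <;> (cases hc; cases hd) <;> simp [t8, t9, t11, t12]
    · -- the branch `d`
      refine .leaf _ ⟨13, 12, ⟨⟨ld, [11], none⟩, ⟨neg ld, [4], some 11⟩, rfl, rfl, rfl⟩, ?_⟩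
      set B : List Node := stem2 ++ [⟨ld, [11], none⟩] with hB
      have t11 : InTrace B 13 11 := InTrace.trans' (k := 11) rfl (by decide) .self
      have t12 : InTrace B 12 12 := .self
      have hC : ∀ j ∈ [13, 12, 11, 4, 3, 1, 0], ∀ n, B[j]? = some n → ∀ k ∈ n.src,
          k ∈ [13, 12, 11, 4, 3, 1, 0] := by
        intro j hj n hn k hk
        have hlt : j < 14 := by
          have := (List.getElem?_eq_some_iff.mp hn).1
          exact this
        interval_cases j <;> first | (exact absurd hj (by decide)) | (cases hn; revert k; decide)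
      have a8 : ¬ InTrace B 13 8 := fun h =>
        absurd (InTrace.mem_of_closed [13, 12, 11, 4, 3, 1, 0] (by decide) hC h) (by decide)
      have a8' : ¬ InTrace B 12 8 := fun h =>
        absurd (InTrace.mem_of_closed [13, 12, 11, 4, 3, 1, 0] (by decide) hC h) (by decide)
      have a9 : ¬ InTrace B 13 9 := fun h =>
        absurd (InTrace.mem_of_closed [13, 12, 11, 4, 3, 1, 0] (by decide) hC h) (by decide)
      have a9' : ¬ InTrace B 12 9 := fun h =>
        absurd (InTrace.mem_of_closed [13, 12, 11, 4, 3, 1, 0] (by decide) hC h) (by decide)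
      intro c d n hc hd
      have hlt : c < 14 := by
        have := (List.getElem?_eq_some_iff.mp hc).1
        exact this
      interval_cases c <;> (cases hc; cases hd) <;> simp [t11, t12, a8, a8', a9, a9']
  · -- the branch `b`
    refine .leaf _ ⟨10, 9, ⟨⟨lb, [8], none⟩, ⟨neg lb, [2], some 8⟩, rfl, rfl, rfl⟩, ?_⟩
    set B : List Node := stem1 ++ [⟨lb, [8], none⟩] with hB
    have t8 : InTrace B 10 8 := InTrace.trans' (k := 8) rfl (by decide) .self
    have t9 : InTrace B 9 9 := .self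
    intro c d n hc hd
    have hlt : c < 11 := by
      have := (List.getElem?_eq_some_iff.mp hc).1
      exact this
    interval_cases c <;> (cases hc; cases hd) <;> simp [t8, t9]

/-! ### no tree with strengthened parity -/

/-- All formulae which can occur in a tree for `¬ PP`, with the kinds (`1`, `2`) of critical nodes
in their traces. -/
def tab : List (Fm × (Bool × Bool)) :=
  [(neg (neg PP), (false, false)), (PP, (false, false)), (P1, (false, false)),
   (conj P2 (conj P3 P4), (false, false)), (P2, (false, false)), (conj P3 P4, (false, false)),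
   (P3, (false, false)), (P4, (false, false)),
   (disj lp lb, (true, false)), (neg lb, (true, false)), (lp, (true, false)), (lb, (true, false)),
   (imp lq lz, (true, false)), (imp (neg ld) (neg lz), (true, false)),
   (disj lq ld, (false, true)), (neg ld, (false, true)), (lq, (false, true)), (ld, (false, true)),
   (lz, (true, true)), (neg lz, (true, true))]

/-- the possible formulae -/
def L : List Fm := tab.map Prod.fst

/-- the kinds of a formula -/
def lab (f : Fm) : Bool × Bool := ((tab.find? (fun x => x.1 = f)).map Prod.snd).getD (false, false)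

/-- Invariant: all formulae are in `L` and kinds are inherited. -/
def Good (B : List Node) : Prop :=
  ∀ (i : ℕ) (n : Node), B[i]? = some n →
    n.fm ∈ L ∧ ∀ k ∈ n.src, ∃ m : Node, B[k]? = some m ∧ lab m.fm ≤ lab n.fm

/-- The formula `f` occurs on `B`. -/
def Occ (B : List Node) (f : Fm) : Prop := ∃ (i : ℕ) (n : Node), B[i]? = some n ∧ n.fm = f

/-- A critical node with the formula `f` occurs on `B`. -/
def Crit (B : List Node) (f : Fm) : Prop :=
  ∃ (i : ℕ) (n : Node) (d : ℕ), B[i]? = some n ∧ n.fm = f ∧ n.partner = some d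

/-- The modes of the adversary: formulae which do not occur, and a formula for which a critical
node occurs. -/
def modes : List (List Fm × Option Fm) :=
  [(L.filter (fun f => lab f ≠ (false, false)), none),
   (lb :: L.filter (fun f => (lab f).2 = true), some (disj lp lb)),
   (ld :: L.filter (fun f => (lab f).1 = true), some (disj lq ld)),
   ([lb, lq, lz], some (disj lp lb)),
   ([ld, lp, imp lq lz, lz], some (disj lq ld))]

/-- `B` is in mode `M`. -/
def In (B : List Node) (M : List Fm × Option Fm) : Prop :=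
  (∀ f ∈ M.1, ¬ Occ B f) ∧ ∀ c, M.2 = some c → Crit B c

/-- The states of the adversary. -/
def Bad (B : List Node) : Prop := Good B ∧ ∃ M ∈ modes, In B M

lemma getElem?_append_some {B N : List Node} {i : ℕ} {n : Node} (h : B[i]? = some n) :
    (B ++ N)[i]? = some n := by
  have hlt := (List.getElem?_eq_some_iff.mp h).1
  rw [List.getElem?_append_left hlt]
  exact h

lemma getElem?_append_cases {B N : List Node} {i : ℕ} {n : Node} (h : (B ++ N)[i]? = some n) :
    B[i]? = some n ∨ n ∈ N := by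
  by_cases hlt : i < B.length
  · left
    rwa [List.getElem?_append_left hlt] at h
  · right
    rw [List.getElem?_append_right (by omega)] at h
    exact List.mem_of_getElem? h

lemma Good.append {B N : List Node} (hB : Good B)
    (hN : ∀ n ∈ N, n.fm ∈ L ∧ ∀ k ∈ n.src, ∃ m : Node, B[k]? = some m ∧ lab m.fm ≤ lab n.fm) :
    Good (B ++ N) := by
  intro i n hi
  rcases getElem?_append_cases hi with h | h
  · obtain ⟨h1, h2⟩ := hB i n h
    refine ⟨h1, fun k hk => ?_⟩
    obtain ⟨m, hm, hle⟩ := h2 k hk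
    exact ⟨m, getElem?_append_some hm, hle⟩
  · obtain ⟨h1, h2⟩ := hN n h
    refine ⟨h1, fun k hk => ?_⟩
    obtain ⟨m, hm, hle⟩ := h2 k hk
    exact ⟨m, getElem?_append_some hm, hle⟩

lemma Occ.of_append {B N : List Node} {f : Fm} (h : Occ (B ++ N) f) :
    Occ B f ∨ ∃ n ∈ N, n.fm = f := by
  obtain ⟨i, n, hi, hf⟩ := h
  rcases getElem?_append_cases hi with h | h
  · exact Or.inl ⟨i, n, h, hf⟩
  · exact Or.inr ⟨n, h, hf⟩

lemma Crit.append {B N : List Node} {f : Fm} (h : Crit B f) : Crit (B ++ N) f := by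
  obtain ⟨i, n, d, hi, hf, hd⟩ := h
  exact ⟨i, n, d, getElem?_append_some hi, hf, hd⟩

lemma In.append {B N : List Node} {M : List Fm × Option Fm} (h : In B M)
    (hN : ∀ n ∈ N, n.fm ∉ M.1) : In (B ++ N) M := by
  refine ⟨?_, fun c hc => (h.2 c hc).append⟩
  intro f hf ho
  rcases ho.of_append with ho | ⟨n, hn, hnf⟩
  · exact h.1 f hf ho
  · exact hN n hn (hnf ▸ hf)

lemma In.change {B N : List Node} {M M' : List Fm × Option Fm} (h : In B M)
    (hs : ∀ f ∈ M'.1, f ∈ M.1) (hN : ∀ n ∈ N, n.fm ∉ M'.1)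
    (hc : ∀ c, M'.2 = some c → M.2 = some c ∨ ∃ n ∈ N, n.fm = c ∧ ∃ d, n.partner = some d) :
    In (B ++ N) M' := by
  refine ⟨?_, ?_⟩
  · intro f hf ho
    rcases ho.of_append with ho | ⟨n, hn, hnf⟩
    · exact h.1 f (hs f hf) ho
    · exact hN n hn (hnf ▸ hf)
  · intro c hc'
    rcases hc c hc' with h1 | ⟨n, hn, hnf, d, hd⟩
    · exact (h.2 c h1).append
    · obtain ⟨i, hi⟩ := List.getElem?_of_mem hn
      refine ⟨B.length + i, n, d, ?_, hnf, hd⟩
      rw [List.getElem?_append_right (by omega)]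
      simpa using hi

/-! ### the possible steps -/

lemma L_conj {a b : Fm} (h : conj a b ∈ L) :
    (a, b) ∈ [(P1, conj P2 (conj P3 P4)), (P2, conj P3 P4), (P3, P4)] := by
  simp [L, tab, PP, P1, P2, P3, P4, lp, lb, lq, ld, lz] at h
  rcases h with ⟨rfl, rfl⟩ | ⟨rfl, rfl⟩ | ⟨rfl, rfl⟩ <;> decide

lemma L_negNeg {a : Fm} (h : neg (neg a) ∈ L) : a = PP := by
  simp [L, tab, PP, P1, P2, P3, P4, lp, lb, lq, ld, lz] at h
  simpa [PP, P1, P2, P3, P4, lp, lb, lq, ld, lz] using h

lemma L_negDisj {a b : Fm} (h : neg (disj a b) ∈ L) : False := by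
  simp [L, tab, PP, P1, P2, P3, P4, lp, lb, lq, ld, lz] at h

lemma L_negConj {a b : Fm} (h : neg (conj a b) ∈ L) : False := by
  simp [L, tab, PP, P1, P2, P3, P4, lp, lb, lq, ld, lz] at h

lemma L_disj {a b : Fm} (h : disj a b ∈ L) : (a, b) ∈ [(lp, lb), (lq, ld)] := by
  simp [L, tab, PP, P1, P2, P3, P4, lp, lb, lq, ld, lz] at h
  rcases h with ⟨rfl, rfl⟩ | ⟨rfl, rfl⟩ <;> decide

lemma L_cc {a b : Fm} (h : neg (imp a b) ∈ L) :
    (a, b) ∈ [(disj lp lb, lb), (disj lq ld, ld)] := by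
  simp [L, tab, PP, P1, P2, P3, P4, lp, lb, lq, ld, lz] at h
  rcases h with ⟨rfl, rfl⟩ | ⟨rfl, rfl⟩ <;> decide

lemma L_mp {f b : Fm} (h : imp f b ∈ L) : (f, b) ∈ [(lp, imp lq lz), (neg lb, imp (neg ld)
    (neg lz)), (lq, lz), (neg ld, neg lz)] := by
  simp [L, tab, PP, P1, P2, P3, P4, lp, lb, lq, ld, lz] at h
  rcases h with ⟨rfl, rfl⟩ | ⟨rfl, rfl⟩ | ⟨rfl, rfl⟩ | ⟨rfl, rfl⟩ <;> decide

lemma L_crash {f : Fm} (h : f ∈ L) (h' : neg f ∈ L) : f ∈ [lb, ld, lz] := by
  have : ∀ f ∈ L, neg f ∈ L → f ∈ [lb, ld, lz] := by decide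
  exact this f h h'

lemma occ_of {B : List Node} {i : ℕ} {n : Node} (h : B[i]? = some n) : Occ B n.fm :=
  ⟨i, n, h, rfl⟩

lemma bad_step {B B' : List Node} (hB : Bad B) (h : Step ∅ B B') : Bad B' := by
  obtain ⟨hG, M, hM, hIn⟩ := hB
  cases h with
  | conj i n a b hi hn =>
    have h1 := (hG i n hi).1
    rw [hn] at h1
    have h2 := L_conj h1
    have h3 : ∀ x ∈ [(P1, conj P2 (conj P3 P4)), (P2, conj P3 P4), (P3, P4)],
        x.1 ∈ L ∧ x.2 ∈ L ∧ lab (conj x.1 x.2) ≤ lab x.1 ∧ lab (conj x.1 x.2) ≤ lab x.2 ∧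
        ∀ M ∈ modes, x.1 ∉ M.1 ∧ x.2 ∉ M.1 := by decide
    obtain ⟨k1, k2, k3, k4, k5⟩ := h3 _ h2
    refine ⟨hG.append ?_, M, hM, hIn.append ?_⟩
    · intro m hm
      rcases List.mem_pair.mp hm with rfl | rfl
      · refine ⟨k1, fun k hk => ⟨n, ?_, ?_⟩⟩
        · rw [List.mem_singleton.mp hk]; exact hi
        · rw [hn]; exact k3
      · refine ⟨k2, fun k hk => ⟨n, ?_, ?_⟩⟩
        · rw [List.mem_singleton.mp hk]; exact hi
        · rw [hn]; exact k4
    · intro m hm
      rcases List.mem_pair.mp hm with rfl | rfl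
      · exact (k5 M hM).1
      · exact (k5 M hM).2
  | negDisj i n a b hi hn =>
    have h1 := (hG i n hi).1
    rw [hn] at h1
    exact (L_negDisj h1).elim
  | negNeg i n a hi hn =>
    have h1 := (hG i n hi).1
    rw [hn] at h1
    have h2 := L_negNeg h1
    subst h2
    have h3 : PP ∈ L ∧ lab (neg (neg PP)) ≤ lab PP ∧ ∀ M ∈ modes, PP ∉ M.1 := by decide
    obtain ⟨k1, k2, k3⟩ := h3
    refine ⟨hG.append ?_, M, hM, hIn.append ?_⟩
    · intro m hm
      rw [List.mem_singleton.mp hm]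
      refine ⟨k1, fun k hk => ⟨n, ?_, ?_⟩⟩
      · rw [List.mem_singleton.mp hk]; exact hi
      · rw [hn]; exact k2
    · intro m hm
      rw [List.mem_singleton.mp hm]
      exact k3 M hM
  | modusPonens i j n m b hi hj hm =>
    have h1 := (hG j m hj).1
    rw [hm] at h1
    have h2 := L_mp h1
    have h3 : ∀ x ∈ [(lp, imp lq lz), (neg lb, imp (neg ld) (neg lz)), (lq, lz), (neg ld, neg lz)],
        x.2 ∈ L ∧ lab x.1 ≤ lab x.2 ∧ lab (imp x.1 x.2) ≤ lab x.2 ∧
        ∀ M ∈ modes, x.1 ∉ M.1 → imp x.1 x.2 ∉ M.1 → x.2 ∉ M.1 := by decide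
    obtain ⟨k1, k2, k3, k4⟩ := h3 _ h2
    refine ⟨hG.append ?_, M, hM, hIn.append ?_⟩
    · intro m' hm'
      rw [List.mem_singleton.mp hm']
      refine ⟨k1, fun k hk => ?_⟩
      rcases List.mem_pair.mp hk with rfl | rfl
      · exact ⟨n, hi, k2⟩
      · exact ⟨m, hj, by rw [hm]; exact k3⟩
    · intro m' hm'
      rw [List.mem_singleton.mp hm']
      refine k4 M hM ?_ ?_
      · intro hf
        exact hIn.1 _ hf (occ_of hi)
      · intro hf
        refine hIn.1 _ hf ?_
        have := occ_of hj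
        rwa [hm] at this
  | counterCase i n a b hi hn =>
    have h1 := (hG i n hi).1
    rw [hn] at h1
    have h2 := L_cc h1
    have h3 : ∀ x ∈ [(disj lp lb, lb), (disj lq ld, ld)],
        x.1 ∈ L ∧ neg x.2 ∈ L ∧ lab (neg (imp x.1 x.2)) ≤ lab x.1 ∧
        lab (neg (imp x.1 x.2)) ≤ lab (neg x.2) ∧
        ∀ M ∈ modes, ∃ M' ∈ modes, (∀ f ∈ M'.1, f ∈ M.1) ∧ x.1 ∉ M'.1 ∧ neg x.2 ∉ M'.1 ∧
          (M'.2 = M.2 ∨ M'.2 = some x.1) := by decide
    obtain ⟨k1, k2, k3, k4, k5⟩ := h3 _ h2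
    obtain ⟨M', hM', l1, l2, l3, l4⟩ := k5 M hM
    refine ⟨hG.append ?_, M', hM', hIn.change l1 ?_ ?_⟩
    · intro m hm
      rcases List.mem_pair.mp hm with rfl | rfl
      · refine ⟨k1, fun k hk => ⟨n, ?_, ?_⟩⟩
        · rw [List.mem_singleton.mp hk]; exact hi
        · rw [hn]; exact k3
      · refine ⟨k2, fun k hk => ⟨n, ?_, ?_⟩⟩
        · rw [List.mem_singleton.mp hk]; exact hi
        · rw [hn]; exact k4
    · intro m hm
      rcases List.mem_pair.mp hm with rfl | rfl
      · exact l2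
      · exact l3
    · intro c hc
      rcases l4 with l4 | l4
      · left; rw [← l4]; exact hc
      · right
        rw [l4] at hc
        exact ⟨_, List.mem_pair.mpr (Or.inl rfl), by simpa using hc, _, rfl⟩
  | recursive i n b hi hX => exact absurd hX (Set.notMem_empty _)

lemma bad_fork {B B₁ B₂ : List Node} (hB : Bad B) (h : Fork B B₁ B₂) : Bad B₁ ∨ Bad B₂ := by
  obtain ⟨hG, M, hM, hIn⟩ := hB
  cases h with
  | negConj i n a b hi hn =>
    have h1 := (hG i n hi).1
    rw [hn] at h1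
    exact (L_negConj h1).elim
  | disj i n a b hi hn =>
    have h1 := (hG i n hi).1
    rw [hn] at h1
    have h2 := L_disj h1
    have h3 : ∀ x ∈ [(lp, lb), (lq, ld)],
        x.1 ∈ L ∧ x.2 ∈ L ∧ lab (disj x.1 x.2) ≤ lab x.1 ∧ lab (disj x.1 x.2) ≤ lab x.2 ∧
        ∀ M ∈ modes, disj x.1 x.2 ∉ M.1 → x.1 ∉ M.1 ∨ x.2 ∉ M.1 := by decide
    obtain ⟨k1, k2, k3, k4, k5⟩ := h3 _ h2
    have k6 : disj a b ∉ M.1 := by
      intro hf
      refine hIn.1 _ hf ?_
      have := occ_of hi
      rwa [hn] at this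
    rcases k5 M hM k6 with h | h
    · left
      refine ⟨hG.append ?_, M, hM, hIn.append ?_⟩
      · intro m hm
        rw [List.mem_singleton.mp hm]
        refine ⟨k1, fun k hk => ⟨n, ?_, ?_⟩⟩
        · rw [List.mem_singleton.mp hk]; exact hi
        · rw [hn]; exact k3
      · intro m hm
        rw [List.mem_singleton.mp hm]
        exact h
    · right
      refine ⟨hG.append ?_, M, hM, hIn.append ?_⟩
      · intro m hm
        rw [List.mem_singleton.mp hm]
        refine ⟨k2, fun k hk => ⟨n, ?_, ?_⟩⟩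
        · rw [List.mem_singleton.mp hk]; exact hi
        · rw [hn]; exact k4
      · intro m hm
        rw [List.mem_singleton.mp hm]
        exact h

lemma Good.trace {B : List Node} (hG : Good B) {i k : ℕ} {n : Node} (hi : B[i]? = some n)
    (h : InTrace B i k) : ∃ m : Node, B[k]? = some m ∧ lab m.fm ≤ lab n.fm := by
  induction h with
  | self => exact ⟨n, hi, le_rfl⟩
  | step j k m _ hm hk ih =>
    obtain ⟨m', hm', hle⟩ := ih
    rw [hm] at hm'
    cases hm'
    obtain ⟨m'', hm'', hle'⟩ := (hG j m hm).2 k hk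
    exact ⟨m'', hm'', hle'.trans hle⟩

lemma bad_leaf {B : List Node} (hB : Bad B) : ¬ StrongParity B := by
  obtain ⟨hG, M, hM, hIn⟩ := hB
  rintro ⟨i, j, ⟨n, m, hi, hj, hnm⟩, h⟩
  have h1 := (hG i n hi).1
  have h2 := (hG j m hj).1
  rw [hnm] at h2
  have h3 := L_crash h1 h2
  have hf : n.fm ∉ M.1 := fun hf => hIn.1 _ hf (occ_of hi)
  have h4 : ∀ f ∈ [lb, ld, lz], lab (neg f) = lab f ∧ ∀ M ∈ modes, f ∉ M.1 →
      ∃ c, M.2 = some c ∧ ¬ lab c ≤ lab f := by decide
  obtain ⟨k1, k2⟩ := h4 _ h3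
  obtain ⟨c, hc, hle⟩ := k2 M hM hf
  obtain ⟨l, o, d, hl, ho, hd⟩ := hIn.2 c hc
  rcases (h l d o hl hd).1 with ht | ht
  · obtain ⟨o', ho', hle'⟩ := hG.trace hi ht
    rw [hl] at ho'
    cases ho'
    rw [ho] at hle'
    exact hle hle'
  · obtain ⟨o', ho', hle'⟩ := hG.trace hj ht
    rw [hl] at ho'
    cases ho'
    rw [ho, hnm, k1] at hle'
    exact hle hle'

lemma bad_not_tree {B : List Node} (h : TreeFrom ∅ StrongParity B) : ¬ Bad B := by
  induction h with
  | leaf B h => exact fun hB => bad_leaf hB h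
  | step B B' h _ ih => exact fun hB => ih (bad_step hB h)
  | fork B B₁ B₂ h _ _ ih₁ ih₂ =>
    intro hB
    rcases bad_fork hB h with h | h
    · exact ih₁ h
    · exact ih₂ h

lemma not_mem_DAs : neg PP ∉ DAs := by
  intro h
  refine bad_not_tree h ⟨?_, _, List.mem_cons_self, ?_, ?_⟩
  · intro i n hi
    rcases i with _ | i
    · simp only [List.length_cons, List.length_nil, zero_add, Nat.lt_one_iff, pos_of_gt,
        List.getElem?_eq_getElem, List.getElem_cons_zero, Option.some.injEq] at hi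
      subst hi
      exact ⟨by decide, fun k hk => absurd hk List.not_mem_nil⟩
    · simp at hi
  · rintro f hf ⟨i, n, hi, hn⟩
    rcases i with _ | i
    · simp only [List.length_cons, List.length_nil, zero_add, Nat.lt_one_iff, pos_of_gt,
        List.getElem?_eq_getElem, List.getElem_cons_zero, Option.some.injEq] at hi
      subst hi
      simp only at hn
      subst hn
      revert hf
      decide
    · simp at hi
  · intro c hc
    exact absurd hc (by simp)

theorem directly_acceptable_ne : neg PP ∈ DA ∧ neg PP ∉ DAs := ⟨mem_DA, not_mem_DAs⟩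

end Pool.Agent.Lib.MP_b8bcd1_lc
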