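import Mathlib
import Pool.Agent.Lib.MP_b8bcd1_lc.Defs

/-!
A class of structures (blocks with clean and dirty pairs) and the truth of formulae at the points
`(G, X)`, where `G` is a structure and `X` a set of units of `G`.
-/

namespace Pool.Agent.Lib.MP_b8bcd1_lc

open Fm

/-- A structure: blocks, which have kinds, and dirty pairs of blocks. A dirty pair of blocks of
different kinds is not the whole structure; three pairwise non-dirty blocks of different kinds are
not the whole structure. -/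
structure Str where
  B : Type
  kind : B → ℕ
  dirty : B → B → Prop
  two : ∀ a b, kind a < kind b → dirty a b → ∃ c, c ≠ a ∧ c ≠ b
  three : ∀ a b c, kind a < kind b → kind b < kind c → ¬ dirty a b → ¬ dirty a c → ¬ dirty b c →
    ∃ d, d ≠ a ∧ d ≠ b ∧ d ≠ c

/-- The units of a structure: two for each block. -/
abbrev Str.U (G : Str) : Type := G.B × Bool

/-- Embeddings. -/
structure Emb (G G' : Str) where
  f : G.B → G'.B
  inj : ∀ a b, f a = f b → a = b
  kind : ∀ a, G'.kind (f a) = G.kind a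
  dirty : ∀ a b, G'.dirty (f a) (f b) ↔ G.dirty a b

/-- The action of an embedding on units. -/
def Emb.u {G G' : Str} (e : Emb G G') (x : G.U) : G'.U := (e.f x.1, x.2)

lemma Emb.u_inj {G G' : Str} (e : Emb G G') {x y : G.U} (h : e.u x = e.u y) : x = y := by
  obtain ⟨a, s⟩ := x
  obtain ⟨b, t⟩ := y
  simp only [Emb.u, Prod.mk.injEq] at h
  rw [Prod.mk.injEq]
  exact ⟨e.inj _ _ h.1, h.2⟩

/-- The identity. -/
def Emb.id (G : Str) : Emb G G := ⟨fun a => a, fun _ _ h => h, fun _ => rfl, fun _ _ => Iff.rfl⟩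

/-- Composition. -/
def Emb.comp {G G' G'' : Str} (e' : Emb G' G'') (e : Emb G G') : Emb G G'' :=
  ⟨fun a => e'.f (e.f a), fun _ _ h => e.inj _ _ (e'.inj _ _ h),
    fun a => (e'.kind _).trans (e.kind a), fun a b => (e'.dirty _ _).trans (e.dirty a b)⟩

/-- There is a block of kind `i` such that `X` contains at most its unit of sort `s`. -/
def One (G : Str) (s : Bool) (i : ℕ) (X : Set G.U) : Prop :=
  ∃ b, G.kind b = i ∧ ∀ x ∈ X, x = (b, s)

/-- There are blocks of the kinds `i` and `j`, not forming a dirty pair, such that `X` contains at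
most their units of the first sort. -/
def Two (G : Str) (i j : ℕ) (X : Set G.U) : Prop :=
  ∃ b c, G.kind b = i ∧ G.kind c = j ∧ ¬ G.dirty b c ∧ ∀ x ∈ X, x = (b, false) ∨ x = (c, false)

/-- Truth of sentence letters. -/
def Atom (G : Str) (X : Set G.U) : ℕ → Prop
  | 0 => One G false 0 X
  | 1 => One G false 1 X
  | 2 => One G false 2 X
  | 3 => One G true 0 X
  | 4 => One G true 1 X
  | 5 => One G true 2 X
  | 6 => Two G 0 1 X
  | 7 => Two G 0 2 X
  | 8 => Two G 1 2 X
  | _ => False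

/-- Truth of formulae. -/
def Tr : Fm → (G : Str) → Set G.U → Prop
  | letter n, G, X => Atom G X n
  | neg a, G, X => ¬ Tr a G Xᶜ
  | conj a b, G, X => Tr a G X ∧ Tr b G X
  | disj a b, G, X => Tr a G X ∨ Tr b G X
  | imp a b, G, X => ∀ (G' : Str) (e : Emb G G') (Y : Set G'.U), Tr a G' Y →
      Tr b G' (e.u '' X ∪ Y)

/-! ### heredity in the second component -/

lemma One.mono {G : Str} {s : Bool} {i : ℕ} {X Z : Set G.U} (hZ : Z ⊆ X) (h : One G s i X) :
    One G s i Z := by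
  obtain ⟨b, hb, hX⟩ := h
  exact ⟨b, hb, fun x hx => hX x (hZ hx)⟩

lemma Two.mono {G : Str} {i j : ℕ} {X Z : Set G.U} (hZ : Z ⊆ X) (h : Two G i j X) :
    Two G i j Z := by
  obtain ⟨b, c, hb, hc, hd, hX⟩ := h
  exact ⟨b, c, hb, hc, hd, fun x hx => hX x (hZ hx)⟩

lemma Atom.mono {G : Str} {X Z : Set G.U} (hZ : Z ⊆ X) (n : ℕ) (h : Atom G X n) :
    Atom G Z n := by
  rcases n with _ | _ | _ | _ | _ | _ | _ | _ | _ | n
  · exact One.mono hZ h
  · exact One.mono hZ h
  · exact One.mono hZ h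
  · exact One.mono hZ h
  · exact One.mono hZ h
  · exact One.mono hZ h
  · exact Two.mono hZ h
  · exact Two.mono hZ h
  · exact Two.mono hZ h
  · exact h

lemma Tr.mono (φ : Fm) : ∀ (G : Str) (X Z : Set G.U), Z ⊆ X → Tr φ G X → Tr φ G Z := by
  induction φ with
  | letter n => exact fun G X Z hZ h => Atom.mono hZ n h
  | neg a ih =>
    intro G X Z hZ h h'
    exact h (ih G _ _ (Set.compl_subset_compl.mpr hZ) h')
  | conj a b iha ihb => exact fun G X Z hZ h => ⟨iha G X Z hZ h.1, ihb G X Z hZ h.2⟩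
  | disj a b iha ihb =>
    intro G X Z hZ h
    rcases h with h | h
    · exact Or.inl (iha G X Z hZ h)
    · exact Or.inr (ihb G X Z hZ h)
  | imp a b iha ihb =>
    intro G X Z hZ h G' e Y hY
    exact ihb G' _ _ (Set.union_subset_union_left _ (Set.image_mono hZ)) (h G' e Y hY)

/-! ### amalgamation -/

section amalgam

variable {G G₁ G₂ : Str} (g : Emb G G₁) (f : Emb G G₂)

/-- The blocks of the amalgam. -/
abbrev AmB : Type := G₁.B ⊕ {y : G₂.B // ¬ ∃ z, f.f z = y}

open Classical in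
/-- The second map into the amalgam. -/
noncomputable def am2 (y : G₂.B) : AmB (G₁ := G₁) f :=
  if h : ∃ z, f.f z = y then Sum.inl (g.f h.choose) else Sum.inr ⟨y, h⟩

lemma am2_f (z : G.B) : am2 g f (f.f z) = Sum.inl (g.f z) := by
  have h : ∃ z', f.f z' = f.f z := ⟨z, rfl⟩
  rw [am2, dif_pos h]
  rw [f.inj _ _ h.choose_spec]

lemma am2_not (y : G₂.B) (h : ¬ ∃ z, f.f z = y) : am2 g f y = Sum.inr ⟨y, h⟩ := by
  rw [am2, dif_neg h]

lemma am2_eq_inl {y : G₂.B} {x : G₁.B} (h : am2 g f y = Sum.inl x) : ∃ z, f.f z = y ∧ g.f z = x := by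
  by_cases hy : ∃ z, f.f z = y
  · obtain ⟨z, rfl⟩ := hy
    rw [am2_f] at h
    exact ⟨z, rfl, Sum.inl_injective h⟩
  · rw [am2_not g f y hy] at h
    exact absurd h (by simp)

lemma am2_inj {y y' : G₂.B} (h : am2 g f y = am2 g f y') : y = y' := by
  by_cases hy : ∃ z, f.f z = y
  · obtain ⟨z, rfl⟩ := hy
    rw [am2_f] at h
    obtain ⟨z', hz', hz⟩ := am2_eq_inl g f h.symm
    rw [← hz', g.inj _ _ hz]
  · by_cases hy' : ∃ z, f.f z = y'
    · obtain ⟨z, rfl⟩ := hy'
      rw [am2_f] at h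
      obtain ⟨z', hz', hz⟩ := am2_eq_inl g f h
      rw [← hz', g.inj _ _ hz]
    · rw [am2_not g f y hy, am2_not g f y' hy'] at h
      have := Sum.inr_injective h
      exact congrArg Subtype.val this

/-- The kinds of the blocks of the amalgam. -/
def amKind : AmB (G₁ := G₁) f → ℕ := Sum.elim G₁.kind (fun y => G₂.kind y.1)

lemma amKind_am2 (y : G₂.B) : amKind (G₁ := G₁) f (am2 g f y) = G₂.kind y := by
  by_cases hy : ∃ z, f.f z = y
  · obtain ⟨z, rfl⟩ := hy
    rw [am2_f]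
    simp only [amKind, Sum.elim_inl]
    rw [g.kind, f.kind]
  · rw [am2_not g f y hy]
    rfl

/-- The dirty pairs of the amalgam: those of the two given structures, and all the other pairs
provided that there is a third block. -/
def amDirty (u v : AmB (G₁ := G₁) f) : Prop :=
  (∃ x y, Sum.inl x = u ∧ Sum.inl y = v ∧ G₁.dirty x y) ∨
  (∃ x y, am2 g f x = u ∧ am2 g f y = v ∧ G₂.dirty x y) ∨
  ((¬ ∃ x y, Sum.inl x = u ∧ Sum.inl y = v) ∧ (¬ ∃ x y, am2 g f x = u ∧ am2 g f y = v) ∧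
    ∃ w : AmB (G₁ := G₁) f, w ≠ u ∧ w ≠ v)

lemma amDirty_inl (x y : G₁.B) : amDirty g f (Sum.inl x) (Sum.inl y) ↔ G₁.dirty x y := by
  constructor
  · rintro (⟨x', y', hx, hy, h⟩ | ⟨x', y', hx, hy, h⟩ | ⟨h, _, _⟩)
    · rwa [← Sum.inl_injective hx, ← Sum.inl_injective hy]
    · obtain ⟨z, rfl, rfl⟩ := am2_eq_inl g f hx
      obtain ⟨z', rfl, rfl⟩ := am2_eq_inl g f hy
      rw [f.dirty] at h
      rwa [g.dirty]
    · exact absurd ⟨x, y, rfl, rfl⟩ h
  · intro h
    exact Or.inl ⟨x, y, rfl, rfl, h⟩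

lemma amDirty_am2 (x y : G₂.B) : amDirty g f (am2 g f x) (am2 g f y) ↔ G₂.dirty x y := by
  constructor
  · rintro (⟨x', y', hx, hy, h⟩ | ⟨x', y', hx, hy, h⟩ | ⟨_, h, _⟩)
    · obtain ⟨z, rfl, rfl⟩ := am2_eq_inl g f hx.symm
      obtain ⟨z', rfl, rfl⟩ := am2_eq_inl g f hy.symm
      rw [g.dirty] at h
      rwa [f.dirty]
    · rwa [← am2_inj g f hx, ← am2_inj g f hy]
    · exact absurd ⟨x, y, rfl, rfl⟩ h
  · intro h
    exact Or.inr (Or.inl ⟨x, y, rfl, rfl, h⟩)

/-- The amalgam. -/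
def am : Str where
  B := AmB (G₁ := G₁) f
  kind := amKind f
  dirty := amDirty g f
  two := by
    intro u v huv h
    rcases h with ⟨x, y, rfl, rfl, h⟩ | ⟨x, y, rfl, rfl, h⟩ | ⟨_, _, h⟩
    · obtain ⟨c, hc1, hc2⟩ := G₁.two x y huv h
      exact ⟨Sum.inl c, fun h => hc1 (Sum.inl_injective h), fun h => hc2 (Sum.inl_injective h)⟩
    · rw [amKind_am2, amKind_am2] at huv
      obtain ⟨c, hc1, hc2⟩ := G₂.two x y huv h
      exact ⟨am2 g f c, fun h => hc1 (am2_inj g f h), fun h => hc2 (am2_inj g f h)⟩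
    · exact h
  three := by
    intro u v w huv hvw duv duw dvw
    -- each pair lies in one of the two structures
    have key : ∀ p q r : AmB (G₁ := G₁) f, r ≠ p → r ≠ q → ¬ amDirty g f p q →
        (∃ x y, Sum.inl x = p ∧ Sum.inl y = q) ∨ (∃ x y, am2 g f x = p ∧ am2 g f y = q) := by
      intro p q r hp hq h
      by_contra hcon
      push Not at hcon
      refine h (Or.inr (Or.inr ⟨?_, ?_, r, hp, hq⟩))
      · rintro ⟨x, y, hx, hy⟩
        exact hcon.1 x y hx hy
      · rintro ⟨x, y, hx, hy⟩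
        exact hcon.2 x y hx hy
    have nuv : u ≠ v := by rintro rfl; exact lt_irrefl _ huv
    have nvw : v ≠ w := by rintro rfl; exact lt_irrefl _ hvw
    have nuw : u ≠ w := by rintro rfl; exact lt_irrefl _ (huv.trans hvw)
    have kuv := key u v w nuw.symm nvw.symm duv
    have kuw := key u w v nuv.symm nvw duw
    have kvw := key v w u nuv nuw dvw
    -- all three lie in one of the two structures
    have all : (∃ x y z, Sum.inl x = u ∧ Sum.inl y = v ∧ Sum.inl z = w) ∨
        (∃ x y z, am2 g f x = u ∧ am2 g f y = v ∧ am2 g f z = w) := by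
      rcases kuv with ⟨x, y, hx, hy⟩ | ⟨x, y, hx, hy⟩
      · rcases kuw with ⟨x', z, hx', hz⟩ | ⟨x', z, hx', hz⟩
        · exact Or.inl ⟨x, y, z, hx, hy, hz⟩
        · rcases kvw with ⟨y', z', hy', hz'⟩ | ⟨y', z', hy', hz'⟩
          · exact Or.inl ⟨x, y, z', hx, hy, hz'⟩
          · exact Or.inr ⟨x', y', z, hx', hy', hz⟩
      · rcases kuw with ⟨x', z, hx', hz⟩ | ⟨x', z, hx', hz⟩
        · rcases kvw with ⟨y', z', hy', hz'⟩ | ⟨y', z', hy', hz'⟩
          · exact Or.inl ⟨x', y', z, hx', hy', hz⟩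
          · exact Or.inr ⟨x, y, z', hx, hy, hz'⟩
        · exact Or.inr ⟨x, y, z, hx, hy, hz⟩
    rcases all with ⟨x, y, z, rfl, rfl, rfl⟩ | ⟨x, y, z, rfl, rfl, rfl⟩
    · obtain ⟨d, h1, h2, h3⟩ := G₁.three x y z huv hvw
        (fun h => duv ((amDirty_inl g f x y).mpr h)) (fun h => duw ((amDirty_inl g f x z).mpr h))
        (fun h => dvw ((amDirty_inl g f y z).mpr h))
      exact ⟨Sum.inl d, fun h => h1 (Sum.inl_injective h), fun h => h2 (Sum.inl_injective h),
        fun h => h3 (Sum.inl_injective h)⟩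
    · rw [amKind_am2, amKind_am2] at huv hvw
      obtain ⟨d, h1, h2, h3⟩ := G₂.three x y z huv hvw
        (fun h => duv ((amDirty_am2 g f x y).mpr h)) (fun h => duw ((amDirty_am2 g f x z).mpr h))
        (fun h => dvw ((amDirty_am2 g f y z).mpr h))
      exact ⟨am2 g f d, fun h => h1 (am2_inj g f h), fun h => h2 (am2_inj g f h),
        fun h => h3 (am2_inj g f h)⟩

/-- The first embedding into the amalgam. -/
def amE1 : Emb G₁ (am g f) :=
  ⟨Sum.inl, fun _ _ h => Sum.inl_injective h, fun _ => rfl, fun a b => amDirty_inl g f a b⟩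

/-- The second embedding into the amalgam. -/
noncomputable def amE2 : Emb G₂ (am g f) :=
  ⟨am2 g f, fun _ _ h => am2_inj g f h, fun y => amKind_am2 g f y, fun a b => amDirty_am2 g f a b⟩

end amalgam

/-! ### the two transfer lemmas -/

/-- The set of units outside an embedded structure, together with the image of `X`. -/
def Emb.ext {G G' : Str} (e : Emb G G') (X : Set G.U) : Set G'.U :=
  e.u '' X ∪ (Set.range e.u)ᶜ

lemma Emb.compl_image {G G' : Str} (e : Emb G G') (X : Set G.U) : (e.u '' X)ᶜ = e.ext Xᶜ := by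
  ext x
  constructor
  · intro h
    by_cases hx : x ∈ Set.range e.u
    · obtain ⟨y, rfl⟩ := hx
      exact Or.inl ⟨y, fun hy => h ⟨y, hy, rfl⟩, rfl⟩
    · exact Or.inr hx
  · rintro (⟨y, hy, rfl⟩ | hx) ⟨z, hz, hzx⟩
    · rw [e.u_inj hzx] at hz
      exact hy hz
    · exact hx ⟨z, hzx⟩

lemma Emb.compl_ext {G G' : Str} (e : Emb G G') (X : Set G.U) : (e.ext X)ᶜ = e.u '' Xᶜ := by
  have h := e.compl_image Xᶜ
  rw [compl_compl] at h
  rw [← h, compl_compl]

lemma Emb.mem_range_u {G G' : Str} (e : Emb G G') {b : G'.B} {s : Bool} :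
    (b, s) ∈ Set.range e.u ↔ ∃ z, e.f z = b := by
  constructor
  · rintro ⟨⟨z, t⟩, h⟩
    exact ⟨z, (Prod.mk.inj h).1⟩
  · rintro ⟨z, rfl⟩
    exact ⟨(z, s), rfl⟩

lemma One.up {G G' : Str} (e : Emb G G') {s : Bool} {i : ℕ} {X : Set G.U} (h : One G s i X) :
    One G' s i (e.u '' X) := by
  obtain ⟨b, hb, hX⟩ := h
  refine ⟨e.f b, by rw [e.kind]; exact hb, ?_⟩
  rintro _ ⟨x, hx, rfl⟩
  rw [hX x hx]
  rfl

lemma Two.up {G G' : Str} (e : Emb G G') {i j : ℕ} {X : Set G.U} (h : Two G i j X) :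
    Two G' i j (e.u '' X) := by
  obtain ⟨b, c, hb, hc, hd, hX⟩ := h
  refine ⟨e.f b, e.f c, by rw [e.kind]; exact hb, by rw [e.kind]; exact hc,
    fun h => hd ((e.dirty _ _).mp h), ?_⟩
  rintro _ ⟨x, hx, rfl⟩
  rcases hX x hx with rfl | rfl
  · exact Or.inl rfl
  · exact Or.inr rfl

lemma One.down {G G' : Str} (e : Emb G G') {s : Bool} {i : ℕ} {X : Set G.U}
    (h : One G' s i (e.ext X)) : One G s i X := by
  obtain ⟨b, hb, hX⟩ := h
  by_cases hr : ∃ z, e.f z = b
  · obtain ⟨z, rfl⟩ := hr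
    refine ⟨z, by rw [← e.kind]; exact hb, fun x hx => ?_⟩
    exact e.u_inj (hX _ (Or.inl ⟨x, hx, rfl⟩))
  · have h1 : (b, !s) ∈ e.ext X := Or.inr (fun h => hr (e.mem_range_u.mp h))
    have h2 := (Prod.mk.inj (hX _ h1)).2
    cases s <;> simp at h2

lemma Two.down {G G' : Str} (e : Emb G G') {i j : ℕ} {X : Set G.U}
    (h : Two G' i j (e.ext X)) : Two G i j X := by
  obtain ⟨b, c, hb, hc, hd, hX⟩ := h
  have key : ∀ a : G'.B, ∃ z, e.f z = a := by
    intro a
    by_contra hr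
    have h1 : (a, true) ∈ e.ext X := Or.inr (fun h => hr (e.mem_range_u.mp h))
    rcases hX _ h1 with h2 | h2
    · exact absurd (Prod.mk.inj h2).2 (by simp)
    · exact absurd (Prod.mk.inj h2).2 (by simp)
  obtain ⟨b, rfl⟩ := key b
  obtain ⟨c, rfl⟩ := key c
  refine ⟨b, c, by rw [← e.kind]; exact hb, by rw [← e.kind]; exact hc,
    fun h => hd ((e.dirty _ _).mpr h), fun x hx => ?_⟩
  rcases hX _ (Or.inl ⟨x, hx, rfl⟩) with h | h
  · exact Or.inl (e.u_inj h)
  · exact Or.inr (e.u_inj h)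

lemma Atom.up {G G' : Str} (e : Emb G G') {X : Set G.U} (n : ℕ) (h : Atom G X n) :
    Atom G' (e.u '' X) n := by
  rcases n with _ | _ | _ | _ | _ | _ | _ | _ | _ | n
  · exact One.up e h
  · exact One.up e h
  · exact One.up e h
  · exact One.up e h
  · exact One.up e h
  · exact One.up e h
  · exact Two.up e h
  · exact Two.up e h
  · exact Two.up e h
  · exact h

lemma Atom.down {G G' : Str} (e : Emb G G') {X : Set G.U} (n : ℕ) (h : Atom G' (e.ext X) n) :
    Atom G X n := by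
  rcases n with _ | _ | _ | _ | _ | _ | _ | _ | _ | n
  · exact One.down e h
  · exact One.down e h
  · exact One.down e h
  · exact One.down e h
  · exact One.down e h
  · exact One.down e h
  · exact Two.down e h
  · exact Two.down e h
  · exact Two.down e h
  · exact h

theorem Tr.updown (φ : Fm) :
    (∀ (G G' : Str) (e : Emb G G') (X : Set G.U), Tr φ G X → Tr φ G' (e.u '' X)) ∧
    (∀ (G G' : Str) (e : Emb G G') (X : Set G.U), Tr φ G' (e.ext X) → Tr φ G X) := by
  induction φ with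
  | letter n =>
    exact ⟨fun G G' e X h => Atom.up e n h, fun G G' e X h => Atom.down e n h⟩
  | neg a ih =>
    refine ⟨fun G G' e X h h' => ?_, fun G G' e X h h' => ?_⟩
    · rw [e.compl_image] at h'
      exact h (ih.2 G G' e _ h')
    · refine h ?_
      rw [e.compl_ext]
      exact ih.1 G G' e _ h'
  | conj a b iha ihb =>
    exact ⟨fun G G' e X h => ⟨iha.1 G G' e X h.1, ihb.1 G G' e X h.2⟩,
      fun G G' e X h => ⟨iha.2 G G' e X h.1, ihb.2 G G' e X h.2⟩⟩
  | disj a b iha ihb =>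
    refine ⟨fun G G' e X h => ?_, fun G G' e X h => ?_⟩
    · rcases h with h | h
      · exact Or.inl (iha.1 G G' e X h)
      · exact Or.inr (ihb.1 G G' e X h)
    · rcases h with h | h
      · exact Or.inl (iha.2 G G' e X h)
      · exact Or.inr (ihb.2 G G' e X h)
  | imp a b iha ihb =>
    refine ⟨fun G G' e X h G'' e' Y hY => ?_, fun G G' e X h G₁ g Z hZ => ?_⟩
    · have h1 := h G'' (e'.comp e) Y hY
      have h2 : (e'.comp e).u '' X = e'.u '' (e.u '' X) := by
        rw [Set.image_image]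
        rfl
      rwa [h2] at h1
    · -- the amalgam of `G₁` and `G'` over `G`
      have h1 : Tr a (am g e) ((amE1 g e).u '' Z) := iha.1 _ _ _ _ hZ
      have h2 := h (am g e) (amE2 g e) _ h1
      refine ihb.2 G₁ (am g e) (amE1 g e) _ (Tr.mono b _ _ _ ?_ h2)
      rintro x (⟨y, hy | hy, rfl⟩ | hx)
      · obtain ⟨z, hz, rfl⟩ := hy
        refine Or.inl ⟨e.u z, Or.inl ⟨z, hz, rfl⟩, ?_⟩
        have := am2_f g e z.1
        simp only [Emb.u, amE2, amE1, this]
      · exact Or.inr ⟨y, hy, rfl⟩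
      · obtain ⟨u, s⟩ := x
        rcases u with u | u
        · exact absurd ⟨(u, s), rfl⟩ hx
        · refine Or.inl ⟨(u.1, s), Or.inr ?_, ?_⟩
          · intro hr
            exact u.2 (e.mem_range_u.mp hr)
          · simp only [Emb.u, amE2]
            rw [am2_not g e u.1 u.2]

end Pool.Agent.Lib.MP_b8bcd1_lc
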