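import Mathlib
import Pool.Agent.Lib.MP_b8bcd1_lc.Defs
import Pool.Agent.Lib.MP_b8bcd1_lc.Model

/-!
The set of formulae which are true at the point `(∅, ∅)` is closed under truth-trees with
strengthened parity and recursive rule.
-/

namespace Pool.Agent.Lib.MP_b8bcd1_lc

open Fm

/-- The empty structure. -/
def emptyStr : Str where
  B := Empty
  kind := Empty.elim
  dirty := fun a _ => a.elim
  two := fun a => a.elim
  three := fun a => a.elim

/-- The embedding of the empty structure. -/
def emptyEmb (G : Str) : Emb emptyStr G :=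
  ⟨fun a => a.elim, fun a => a.elim, fun a => a.elim, fun a => a.elim⟩

/-- The formulae which are true at the root. -/
def Valid : Set Fm := {φ | Tr φ emptyStr ∅}

lemma set_emptyStr (X : Set emptyStr.U) : X = ∅ := by
  ext ⟨a, _⟩
  exact a.elim

/-! ### traces on extended branches -/

lemma get_old {B N : List Node} {i : ℕ} (hi : i < B.length) : (B ++ N)[i]? = B[i]? :=
  List.getElem?_append_left hi

lemma get_new {B : List Node} {n : Node} : (B ++ [n])[B.length]? = some n := by
  rw [List.getElem?_append_right le_rfl]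
  simp

lemma get_cases {B : List Node} {n m : Node} {i : ℕ} (h : (B ++ [n])[i]? = some m) :
    (i < B.length ∧ B[i]? = some m) ∨ (i = B.length ∧ m = n) := by
  by_cases hi : i < B.length
  · rw [get_old hi] at h
    exact Or.inl ⟨hi, h⟩
  · have h1 := (List.getElem?_eq_some_iff.mp h).1
    rw [List.length_append, List.length_singleton] at h1
    have h2 : i = B.length := by omega
    subst h2
    rw [get_new] at h
    exact Or.inr ⟨rfl, (Option.some.inj h).symm⟩

/-- Sources come earlier. -/
def WF (B : List Node) : Prop := ∀ (i : ℕ) (n : Node), B[i]? = some n → ∀ k ∈ n.src, k < i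

/-- The labelling which agrees with `Λ` except for the position `m`. -/
def relab {T : Type} (m : ℕ) (N : Set T) (Λ : ℕ → Set T) (i : ℕ) : Set T :=
  if i = m then N else Λ i

lemma relab_eq {T : Type} (m : ℕ) (N : Set T) (Λ : ℕ → Set T) : relab m N Λ m = N := if_pos rfl

lemma relab_ne {T : Type} {m i : ℕ} (h : i ≠ m) (N : Set T) (Λ : ℕ → Set T) :
    relab m N Λ i = Λ i := if_neg h

lemma WF.snoc {B : List Node} {n : Node} (hB : WF B) (hn : ∀ k ∈ n.src, k < B.length) :
    WF (B ++ [n]) := by
  intro i m hi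
  rcases get_cases hi with ⟨_, h⟩ | ⟨rfl, rfl⟩
  · exact hB i m h
  · exact hn

lemma trace_old {B N : List Node} (hB : WF B) {s c : ℕ} (hs : s < B.length)
    (h : InTrace (B ++ N) s c) : InTrace B s c ∧ c < B.length := by
  induction h with
  | self => exact ⟨.self, hs⟩
  | step j k n _ hn hk ih =>
    rw [get_old ih.2] at hn
    exact ⟨.step j k n ih.1 hn hk, (hB j n hn k hk).trans ih.2⟩

lemma trace_first {B : List Node} {s c : ℕ} (h : InTrace B s c) :
    c = s ∨ ∃ n, B[s]? = some n ∧ ∃ k ∈ n.src, InTrace B k c := by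
  induction h with
  | self => exact Or.inl rfl
  | step j k n _ hn hk ih =>
    rcases ih with rfl | ⟨m, hm, l, hl, hlj⟩
    · exact Or.inr ⟨n, hn, k, hk, .self⟩
    · exact Or.inr ⟨m, hm, l, hl, .step j k n hlj hn hk⟩

/-- The positions in `S` generate a trace which contains all critical nodes. -/
def Covers (B : List Node) (S : Set ℕ) : Prop :=
  (∀ s ∈ S, s < B.length) ∧
  ∀ (c d : ℕ) (n : Node), B[c]? = some n → n.partner = some d → ∃ s ∈ S, InTrace B s c

/-- The invariant: the nodes are true at the points given by their labels, and the labels of the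
nodes in a covering set have the union `G`. -/
def Inv (B : List Node) (G : Str) (Λ : ℕ → Set G.U) : Prop :=
  WF B ∧ (∀ (i : ℕ) (n : Node), B[i]? = some n → Tr n.fm G (Λ i)) ∧
  ∀ S, Covers B S → ∀ x, ∃ s ∈ S, x ∈ Λ s

/-- Adding a node which is not critical. -/
lemma Inv.snoc {B : List Node} {G : Str} {Λ : ℕ → Set G.U} (h : Inv B G Λ) (n : Node)
    (hp : n.partner = none) (hk : ∀ k ∈ n.src, k < B.length)
    (ht : Tr n.fm G {x | ∃ k ∈ n.src, x ∈ Λ k}) :
    Inv (B ++ [n]) G (relab B.length {x | ∃ k ∈ n.src, x ∈ Λ k} Λ) := by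
  obtain ⟨hW, hT, hC⟩ := h
  refine ⟨hW.snoc hk, ?_, ?_⟩
  · intro i m hi
    rcases get_cases hi with ⟨hlt, h⟩ | ⟨rfl, rfl⟩
    · rw [relab_ne hlt.ne]
      exact hT i m h
    · rw [relab_eq]
      exact ht
  · intro S hS x
    -- replace the new position by its sources
    have hS' : Covers B {k | (k ∈ S ∧ k < B.length) ∨ (B.length ∈ S ∧ k ∈ n.src)} := by
      refine ⟨?_, ?_⟩
      · rintro k (h | h)
        · exact h.2
        · exact hk k h.2
      · intro c d m hc hd
        have hlt := (List.getElem?_eq_some_iff.mp hc).1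
        have hc' : (B ++ [n])[c]? = some m := by rw [get_old hlt]; exact hc
        obtain ⟨s, hs, ht⟩ := hS.2 c d m hc' hd
        by_cases hsl : s < B.length
        · exact ⟨s, Or.inl ⟨hs, hsl⟩, (trace_old hW hsl ht).1⟩
        · have h1 := hS.1 s hs
          rw [List.length_append, List.length_singleton] at h1
          have h2 : s = B.length := by omega
          subst h2
          rcases trace_first ht with h3 | ⟨m', hm', k, hk', hkc⟩
          · omega
          · rw [get_new] at hm'
            cases hm'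
            exact ⟨k, Or.inr ⟨hs, hk'⟩, (trace_old hW (hk k hk') hkc).1⟩
    obtain ⟨s, hs, hx⟩ := hC _ hS' x
    rcases hs with ⟨hs, hlt⟩ | ⟨hs, hsn⟩
    · refine ⟨s, hs, ?_⟩
      rw [relab_ne hlt.ne]
      exact hx
    · refine ⟨B.length, hs, ?_⟩
      rw [relab_eq]
      exact ⟨s, hsn, hx⟩

/-- Adding a node with a single source. -/
lemma Inv.snoc1 {B : List Node} {G : Str} {Λ : ℕ → Set G.U} (h : Inv B G Λ) (f : Fm) (i : ℕ)
    (hi : i < B.length) (ht : Tr f G (Λ i)) :
    ∃ Λ' : ℕ → Set G.U, Inv (B ++ [⟨f, [i], none⟩]) G Λ' ∧ Λ' i = Λ i := by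
  refine ⟨_, h.snoc ⟨f, [i], none⟩ rfl ?_ ?_, ?_⟩
  · intro k hk
    rw [List.mem_singleton.mp hk]
    exact hi
  · have : {x | ∃ k ∈ [i], x ∈ Λ k} = Λ i := by
      ext x
      simp
    change Tr f G {x | ∃ k ∈ [i], x ∈ Λ k}
    rw [this]
    exact ht
  · exact relab_ne hi.ne _ _

lemma len_of {B : List Node} {i : ℕ} {n : Node} (h : B[i]? = some n) : i < B.length :=
  (List.getElem?_eq_some_iff.mp h).1

lemma id_image {G : Str} (X : Set G.U) : (Emb.id G).u '' X = X := by
  ext x
  constructor
  · rintro ⟨y, hy, rfl⟩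
    exact hy
  · intro h
    exact ⟨x, h, rfl⟩

lemma Inv.step {B B' : List Node} {G : Str} {Λ : ℕ → Set G.U} (h : Inv B G Λ)
    (hs : Step Valid B B') : ∃ (G' : Str) (Λ' : ℕ → Set G'.U), Inv B' G' Λ' := by
  cases hs with
  | conj i n a b hi hn =>
    have h1 := h.2.1 i n hi
    rw [hn] at h1
    have hlt := len_of hi
    obtain ⟨Λ₁, hI₁, he₁⟩ := h.snoc1 a i hlt h1.1
    obtain ⟨Λ₂, hI₂, _⟩ := hI₁.snoc1 b i (by rw [List.length_append]; omega)
      (by rw [he₁]; exact h1.2)
    refine ⟨G, Λ₂, ?_⟩
    rw [List.append_assoc] at hI₂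
    exact hI₂
  | negDisj i n a b hi hn =>
    have h1 := h.2.1 i n hi
    rw [hn] at h1
    have hlt := len_of hi
    obtain ⟨Λ₁, hI₁, he₁⟩ := h.snoc1 (neg a) i hlt (fun h2 => h1 (Or.inl h2))
    obtain ⟨Λ₂, hI₂, _⟩ := hI₁.snoc1 (neg b) i (by rw [List.length_append]; omega)
      (by rw [he₁]; exact fun h2 => h1 (Or.inr h2))
    refine ⟨G, Λ₂, ?_⟩
    rw [List.append_assoc] at hI₂
    exact hI₂
  | negNeg i n a hi hn =>
    have h1 := h.2.1 i n hi
    rw [hn] at h1
    have h2 : Tr a G (Λ i) := by
      by_contra hcon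
      refine h1 ?_
      change ¬ Tr a G (Λ i)ᶜᶜ
      rwa [compl_compl]
    obtain ⟨Λ₁, hI₁, _⟩ := h.snoc1 a i (len_of hi) h2
    exact ⟨G, Λ₁, hI₁⟩
  | modusPonens i j n m b hi hj hm =>
    have h1 := h.2.1 i n hi
    have h2 := h.2.1 j m hj
    rw [hm] at h2
    have h3 := h2 G (Emb.id G) (Λ i) h1
    rw [id_image] at h3
    refine ⟨G, _, h.snoc ⟨b, [i, j], none⟩ rfl ?_ ?_⟩
    · intro k hk
      rcases List.mem_pair.mp hk with rfl | rfl
      · exact len_of hi
      · exact len_of hj
    · refine Tr.mono b G _ _ ?_ h3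
      rintro x ⟨k, hk, hx⟩
      rcases List.mem_pair.mp hk with rfl | rfl
      · exact Or.inr hx
      · exact Or.inl hx
  | recursive i n b hi hX =>
    have h1 := h.2.1 i n hi
    have h3 := hX G (emptyEmb G) (Λ i) h1
    obtain ⟨Λ₁, hI₁, _⟩ := h.snoc1 b i (len_of hi) (Tr.mono b G _ _ Set.subset_union_right h3)
    exact ⟨G, Λ₁, hI₁⟩
  | counterCase i n a b hi hn =>
    have hlt := len_of hi
    have h1 := h.2.1 i n hi
    rw [hn] at h1
    have h2 : ∃ (G' : Str) (e : Emb G G') (Y : Set G'.U), Tr a G' Y ∧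
        ¬ Tr b G' (e.u '' (Λ i)ᶜ ∪ Y) := by
      by_contra hcon
      push Not at hcon
      exact h1 hcon
    obtain ⟨G', e, Y, hY, hZ⟩ := h2
    obtain ⟨hW, hT, hC⟩ := h
    set c₁ : Node := ⟨a, [i], some (B.length + 1)⟩ with hc₁
    set c₂ : Node := ⟨neg b, [i], some B.length⟩ with hc₂
    set Z : Set G'.U := (e.u '' (Λ i)ᶜ ∪ Y)ᶜ with hZd
    have eB : B ++ [c₁, c₂] = (B ++ [c₁]) ++ [c₂] := by simp
    have hl1 : (B ++ [c₁]).length = B.length + 1 := by simp
    have hW1 : WF (B ++ [c₁]) := hW.snoc (by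
      intro k hk
      rw [List.mem_singleton.mp hk]
      exact hlt)
    have hW2 : WF ((B ++ [c₁]) ++ [c₂]) := hW1.snoc (by
      intro k hk
      rw [List.mem_singleton.mp hk, hl1]
      omega)
    refine ⟨G', relab B.length Y (relab (B.length + 1) Z (fun k => e.u '' (Λ k))), ?_⟩
    rw [eB]
    refine ⟨hW2, ?_, ?_⟩
    · intro k m hk
      rcases get_cases hk with ⟨hlt', h'⟩ | ⟨rfl, rfl⟩
      · rcases get_cases h' with ⟨hlt'', h''⟩ | ⟨rfl, rfl⟩
        · rw [relab_ne hlt''.ne, relab_ne (by omega)]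
          exact (Tr.updown m.fm).1 G G' e _ (hT k m h'')
        · rw [relab_eq]
          exact hY
      · rw [hl1, relab_ne (by omega), relab_eq]
        change ¬ Tr b G' Zᶜ
        rw [hZd, compl_compl]
        exact hZ
    · intro S hS x
      have hmem : ∀ (c : ℕ) (n : Node) (d : ℕ), ((B ++ [c₁]) ++ [c₂])[c]? = some n →
          n.partner = some d → B.length ≤ c → c ∈ S := by
        intro c n d hc hd hle
        obtain ⟨s, hs, ht⟩ := hS.2 c d n hc hd
        have hs1 := hS.1 s hs
        rw [List.length_append, hl1, List.length_singleton] at hs1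
        rcases trace_first ht with rfl | ⟨m, hm, k, hk, hkc⟩
        · exact hs
        · exfalso
          have hkB : k < B.length := by
            rcases get_cases hm with ⟨hlt', h'⟩ | ⟨rfl, rfl⟩
            · rcases get_cases h' with ⟨hlt'', h''⟩ | ⟨rfl, rfl⟩
              · exact (hW s m h'' k hk).trans hlt''
              · rw [List.mem_singleton.mp hk]
                exact hlt
            · rw [List.mem_singleton.mp hk]
              exact hlt
          have h3 : InTrace (B ++ ([c₁] ++ [c₂])) k c := by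
            rw [← List.append_assoc]
            exact hkc
          have := (trace_old hW hkB h3).2
          omega
      have m1 : B.length ∈ S := by
        refine hmem B.length c₁ (B.length + 1) ?_ rfl le_rfl
        rw [get_old (by rw [hl1]; omega), get_new]
      have m2 : B.length + 1 ∈ S := by
        refine hmem (B.length + 1) c₂ B.length ?_ rfl (by omega)
        have := get_new (B := B ++ [c₁]) (n := c₂)
        rw [hl1] at this
        exact this
      by_cases hxY : x ∈ Y
      · refine ⟨B.length, m1, ?_⟩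
        rw [relab_eq]
        exact hxY
      by_cases hxZ : x ∈ Z
      · refine ⟨B.length + 1, m2, ?_⟩
        rw [relab_ne (by omega), relab_eq]
        exact hxZ
      -- `x` is the image of a unit of `G` outside the label of the node at position `i`
      have h4 : x ∈ e.u '' (Λ i)ᶜ := by
        rw [hZd, Set.mem_compl_iff, not_not] at hxZ
        rcases hxZ with h | h
        · exact h
        · exact absurd h hxY
      obtain ⟨y, hy, rfl⟩ := h4
      have hS' : Covers B {k | (k ∈ S ∧ k < B.length) ∨ k = i} := by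
        refine ⟨?_, ?_⟩
        · rintro k (h | h)
          · exact h.2
          · rw [h]; exact hlt
        · intro c d m hc hd
          have hltc := len_of hc
          have hc' : ((B ++ [c₁]) ++ [c₂])[c]? = some m := by
            rw [get_old (by rw [hl1]; omega), get_old hltc]
            exact hc
          obtain ⟨s, hs, ht⟩ := hS.2 c d m hc' hd
          have ht' : InTrace (B ++ ([c₁] ++ [c₂])) s c := by
            rw [← List.append_assoc]
            exact ht
          by_cases hsl : s < B.length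
          · exact ⟨s, Or.inl ⟨hs, hsl⟩, (trace_old hW hsl ht').1⟩
          · refine ⟨i, Or.inr rfl, ?_⟩
            rcases trace_first ht with rfl | ⟨m', hm', k, hk', hkc⟩
            · omega
            · have hki : k = i := by
                rcases get_cases hm' with ⟨hlt', h'⟩ | ⟨rfl, rfl⟩
                · rcases get_cases h' with ⟨hlt'', h''⟩ | ⟨rfl, rfl⟩
                  · exact absurd hlt'' hsl
                  · exact List.mem_singleton.mp hk'
                · exact List.mem_singleton.mp hk'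
              subst hki
              have h3 : InTrace (B ++ ([c₁] ++ [c₂])) k c := by
                rw [← List.append_assoc]
                exact hkc
              exact (trace_old hW hlt h3).1
      obtain ⟨s, hs, hx⟩ := hC _ hS' y
      rcases hs with ⟨hs, hlt'⟩ | rfl
      · refine ⟨s, hs, ?_⟩
        rw [relab_ne hlt'.ne, relab_ne (by omega)]
        exact ⟨y, hx, rfl⟩
      · exact absurd hx hy

lemma Inv.fork {B B₁ B₂ : List Node} {G : Str} {Λ : ℕ → Set G.U} (h : Inv B G Λ)
    (hs : Fork B B₁ B₂) : (∃ Λ' : ℕ → Set G.U, Inv B₁ G Λ') ∨ ∃ Λ' : ℕ → Set G.U, Inv B₂ G Λ' := by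
  cases hs with
  | negConj i n a b hi hn =>
    have h1 := h.2.1 i n hi
    rw [hn] at h1
    by_cases h2 : Tr a G (Λ i)ᶜ
    · right
      obtain ⟨Λ₁, hI₁, _⟩ := h.snoc1 (neg b) i (len_of hi) (fun h3 => h1 ⟨h2, h3⟩)
      exact ⟨Λ₁, hI₁⟩
    · left
      obtain ⟨Λ₁, hI₁, _⟩ := h.snoc1 (neg a) i (len_of hi) h2
      exact ⟨Λ₁, hI₁⟩
  | disj i n a b hi hn =>
    have h1 := h.2.1 i n hi
    rw [hn] at h1
    rcases h1 with h1 | h1
    · left
      obtain ⟨Λ₁, hI₁, _⟩ := h.snoc1 a i (len_of hi) h1
      exact ⟨Λ₁, hI₁⟩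
    · right
      obtain ⟨Λ₁, hI₁, _⟩ := h.snoc1 b i (len_of hi) h1
      exact ⟨Λ₁, hI₁⟩

lemma Inv.leaf {B : List Node} {G : Str} {Λ : ℕ → Set G.U} (h : Inv B G Λ) :
    ¬ StrongParity B := by
  rintro ⟨i, j, ⟨n, m, hi, hj, hnm⟩, hP⟩
  obtain ⟨_, hT, hC⟩ := h
  have h1 := hT i n hi
  have h2 := hT j m hj
  rw [hnm] at h2
  refine h2 (Tr.mono n.fm G _ _ ?_ h1)
  have hS : Covers B {k | k = i ∨ k = j} := by
    refine ⟨?_, ?_⟩
    · rintro k (rfl | rfl)
      · exact len_of hi
      · exact len_of hj
    · intro c d o hc hd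
      rcases (hP c d o hc hd).1 with h | h
      · exact ⟨i, Or.inl rfl, h⟩
      · exact ⟨j, Or.inr rfl, h⟩
  intro x hx
  obtain ⟨s, hs, hxs⟩ := hC _ hS x
  rcases hs with rfl | rfl
  · exact hxs
  · exact absurd hxs hx

lemma not_treeFrom {B : List Node} (h : TreeFrom Valid StrongParity B) :
    ∀ (G : Str) (Λ : ℕ → Set G.U), ¬ Inv B G Λ := by
  induction h with
  | leaf B h => exact fun G Λ hI => hI.leaf h
  | step B B' h _ ih =>
    intro G Λ hI
    obtain ⟨G', Λ', hI'⟩ := hI.step h
    exact ih G' Λ' hI'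
  | fork B B₁ B₂ h _ _ ih₁ ih₂ =>
    intro G Λ hI
    rcases hI.fork h with ⟨Λ', hI'⟩ | ⟨Λ', hI'⟩
    · exact ih₁ G Λ' hI'
    · exact ih₂ G Λ' hI'

/-- Soundness: the set of valid formulae is closed under truth-trees with strengthened parity and
recursive rule. -/
theorem valid_of_tree (φ : Fm) (h : HasTree Valid StrongParity φ) : φ ∈ Valid := by
  by_contra hcon
  have key : ∀ (i : ℕ) (n : Node), [(⟨neg φ, [], none⟩ : Node)][i]? = some n →
      ∀ k ∈ n.src, k < i := by
    intro i n hi
    rcases i with _ | i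
    · simp only [List.length_cons, List.length_nil, zero_add, Nat.lt_one_iff, pos_of_gt,
        List.getElem?_eq_getElem, List.getElem_cons_zero, Option.some.injEq] at hi
      subst hi
      exact fun k hk => absurd hk List.not_mem_nil
    · simp at hi
  refine not_treeFrom h emptyStr (fun _ => ∅) ⟨key, ?_, ?_⟩
  · intro i n hi
    rcases i with _ | i
    · simp only [List.length_cons, List.length_nil, zero_add, Nat.lt_one_iff, pos_of_gt,
        List.getElem?_eq_getElem, List.getElem_cons_zero, Option.some.injEq] at hi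
      subst hi
      intro h1
      rw [set_emptyStr ∅ᶜ] at h1
      exact hcon h1
    · simp at hi
  · rintro S _ ⟨a, _⟩
    exact a.elim

end Pool.Agent.Lib.MP_b8bcd1_lc
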