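import Mathlib
import Pool.Agent.Lib.MP_b8bcd1_lc.Defs
import Pool.Agent.Lib.MP_b8bcd1_lc.Model
import Pool.Agent.Lib.MP_b8bcd1_lc.Sound

/-!
A directly acceptable formula which is not acceptable in the sense of strengthened parity, even
with the recursive rule.
-/

namespace Pool.Agent.Lib.MP_b8bcd1_lc.Rec

open Fm

/-! ### the formula -/

def a1 : Fm := letter 0
def a2 : Fm := letter 1
def a3 : Fm := letter 2
def b1 : Fm := letter 3
def b2 : Fm := letter 4
def b3 : Fm := letter 5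
def p12 : Fm := letter 6
def p13 : Fm := letter 7
def p23 : Fm := letter 8

/-- `¬(a₁ → ¬b₁)` -/
def P1 : Fm := neg (imp a1 (neg b1))
/-- `¬(a₂ → ¬b₂)` -/
def P2 : Fm := neg (imp a2 (neg b2))
/-- `¬(a₃ → ¬b₃)` -/
def P3 : Fm := neg (imp a3 (neg b3))
/-- `p₁₂ ∨ (b₁ → ¬b₂)` -/
def D12 : Fm := disj p12 (imp b1 (neg b2))
/-- `p₁₃ ∨ (b₁ → ¬b₃)` -/
def D13 : Fm := disj p13 (imp b1 (neg b3))
/-- `p₂₃ ∨ (b₂ → ¬b₃)` -/
def D23 : Fm := disj p23 (imp b2 (neg b3))
/-- `a₁ → (a₂ → (p₁₂ ∨ (b₁ → ¬b₂)))` -/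
def F12 : Fm := imp a1 (imp a2 D12)
/-- `a₁ → (a₃ → (p₁₃ ∨ (b₁ → ¬b₃)))` -/
def F13 : Fm := imp a1 (imp a3 D13)
/-- `a₂ → (a₃ → (p₂₃ ∨ (b₂ → ¬b₃)))` -/
def F23 : Fm := imp a2 (imp a3 D23)
/-- `b₁ → (b₂ → ¬b₃)` -/
def E : Fm := imp b1 (imp b2 (neg b3))
/-- `p₁₂ → (p₁₃ → (p₂₃ → (b₁ → (b₂ → ¬b₃))))` -/
def F : Fm := imp p12 (imp p13 (imp p23 E))
/-- The conjunction of the premises. -/
def PP : Fm := conj P1 (conj P2 (conj P3 (conj F12 (conj F13 (conj F23 F)))))

/-! ### the tree with parity -/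

/-- A search for `c` in the trace of `i`, with bounded depth. -/
def reach (B : List Node) : ℕ → ℕ → ℕ → Bool
  | 0, i, c => decide (i = c)
  | m + 1, i, c => decide (i = c) || (match B[i]? with
    | some n => n.src.any (fun k => reach B m k c)
    | none => false)

lemma InTrace.head {B : List Node} {i k l : ℕ} {n : Node} (hi : B[i]? = some n)
    (hk : k ∈ n.src) (h : InTrace B k l) : InTrace B i l := by
  induction h with
  | self => exact .step i k n .self hi hk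
  | step j k' m _ hm hk' ih => exact .step j k' m ih hm hk'

lemma reach_sound (B : List Node) (m : ℕ) : ∀ i c, reach B m i c = true → InTrace B i c := by
  induction m with
  | zero =>
    intro i c h
    have : i = c := by simpa [reach] using h
    rw [this]
    exact .self
  | succ m ih =>
    intro i c h
    rw [reach, Bool.or_eq_true] at h
    rcases h with h | h
    · rw [of_decide_eq_true h]
      exact .self
    · cases hn : B[i]? with
      | none => rw [hn] at h; exact absurd h (by simp)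
      | some n =>
        rw [hn] at h
        obtain ⟨k, hk, hr⟩ := List.any_eq_true.mp h
        exact InTrace.head hn hk (ih k c hr)

/-- `C` is closed under taking sources. -/
def closed (B : List Node) (C : List ℕ) : Bool :=
  C.all (fun j => match B[j]? with
    | some n => n.src.all (fun k => decide (k ∈ C))
    | none => false)

lemma closed_sound {B : List Node} {C : List ℕ} (hC : closed B C = true) {i c : ℕ} (hi : i ∈ C)
    (h : InTrace B i c) : c ∈ C := by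
  induction h with
  | self => exact hi
  | step j k n _ hn hk ih =>
    have h1 := List.all_eq_true.mp hC j ih
    rw [hn] at h1
    exact of_decide_eq_true (List.all_eq_true.mp h1 k hk)

/-- A check of parity: `C` is closed and contains `i`, `j`; a critical node which lies in `C` is
found by the search, and so is its partner; the others have their partners outside `C`. -/
def check (B : List Node) (C : List ℕ) (i j : ℕ) : Bool :=
  closed B C && (decide (i ∈ C) && (decide (j ∈ C) &&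
  (List.range B.length).all (fun c => match B[c]? with
    | some n => (match n.partner with
      | some d => ((reach B 15 i c || reach B 15 j c) && (reach B 15 i d || reach B 15 j d)) ||
          (decide (c ∉ C) && decide (d ∉ C))
      | none => true)
    | none => true)))

lemma check_sound {B : List Node} {C : List ℕ} {i j : ℕ} (h : check B C i j = true)
    (hc : CrashPair B i j) : Parity B := by
  rw [check, Bool.and_eq_true, Bool.and_eq_true, Bool.and_eq_true] at h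
  obtain ⟨h1, h2, h3, h4⟩ := h
  have h2 := of_decide_eq_true h2
  have h3 := of_decide_eq_true h3
  refine ⟨i, j, hc, fun c d n hn hd => ?_⟩
  have hlt : c < B.length := (List.getElem?_eq_some_iff.mp hn).1
  have h5 := List.all_eq_true.mp h4 c (List.mem_range.mpr hlt)
  rw [hn] at h5
  simp only [hd] at h5
  rw [Bool.or_eq_true, Bool.and_eq_true, Bool.and_eq_true, Bool.or_eq_true, Bool.or_eq_true] at h5
  rcases h5 with ⟨h6, h7⟩ | ⟨h6, h7⟩
  · have h6' : InTrace B i c ∨ InTrace B j c :=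
      h6.imp (reach_sound B 15 i c) (reach_sound B 15 j c)
    have h7' : InTrace B i d ∨ InTrace B j d :=
      h7.imp (reach_sound B 15 i d) (reach_sound B 15 j d)
    exact ⟨fun _ => h7', fun _ => h6'⟩
  · have h6 := of_decide_eq_true h6
    have h7 := of_decide_eq_true h7
    constructor
    · rintro (h | h)
      · exact absurd (closed_sound h1 h2 h) h6
      · exact absurd (closed_sound h1 h3 h) h6
    · rintro (h | h)
      · exact absurd (closed_sound h1 h2 h) h7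
      · exact absurd (closed_sound h1 h3 h) h7

/-- nodes `0 … 13` -/
def stem0 : List Node :=
  [⟨neg (neg PP), [], none⟩, ⟨PP, [0], none⟩,
   ⟨P1, [1], none⟩, ⟨conj P2 (conj P3 (conj F12 (conj F13 (conj F23 F)))), [1], none⟩,
   ⟨P2, [3], none⟩, ⟨conj P3 (conj F12 (conj F13 (conj F23 F))), [3], none⟩,
   ⟨P3, [5], none⟩, ⟨conj F12 (conj F13 (conj F23 F)), [5], none⟩,
   ⟨F12, [7], none⟩, ⟨conj F13 (conj F23 F), [7], none⟩,
   ⟨F13, [9], none⟩, ⟨conj F23 F, [9], none⟩,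
   ⟨F23, [11], none⟩, ⟨F, [11], none⟩]

/-- nodes `0 … 24` -/
def stem1 : List Node := stem0 ++
  [⟨a1, [2], some 15⟩, ⟨neg (neg b1), [2], some 14⟩, ⟨b1, [15], none⟩,
   ⟨a2, [4], some 18⟩, ⟨neg (neg b2), [4], some 17⟩, ⟨b2, [18], none⟩,
   ⟨a3, [6], some 21⟩, ⟨neg (neg b3), [6], some 20⟩, ⟨b3, [21], none⟩,
   ⟨imp a2 D12, [14, 8], none⟩, ⟨D12, [17, 23], none⟩]

/-- the first leaf -/
def leaf1 : List Node := stem1 ++ [⟨imp b1 (neg b2), [24], none⟩, ⟨neg b2, [16, 25], none⟩]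

/-- nodes `0 … 27` -/
def stem2 : List Node := stem1 ++ [⟨p12, [24], none⟩, ⟨imp a3 D13, [14, 10], none⟩,
   ⟨D13, [20, 26], none⟩]

/-- the second leaf -/
def leaf2 : List Node := stem2 ++ [⟨imp b1 (neg b3), [27], none⟩, ⟨neg b3, [16, 28], none⟩]

/-- nodes `0 … 30` -/
def stem3 : List Node := stem2 ++ [⟨p13, [27], none⟩, ⟨imp a3 D23, [17, 12], none⟩,
   ⟨D23, [20, 29], none⟩]

/-- the third leaf -/
def leaf3 : List Node := stem3 ++ [⟨imp b2 (neg b3), [30], none⟩, ⟨neg b3, [19, 31], none⟩]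

/-- the fourth leaf -/
def leaf4 : List Node := stem3 ++ [⟨p23, [30], none⟩, ⟨imp p13 (imp p23 E), [25, 13], none⟩,
   ⟨imp p23 E, [28, 32], none⟩, ⟨E, [31, 33], none⟩, ⟨imp b2 (neg b3), [16, 34], none⟩,
   ⟨neg b3, [19, 35], none⟩]

lemma parity1 : Parity leaf1 := by
  refine check_sound (C := [0, 1, 2, 3, 4, 5, 7, 8, 14, 15, 16, 17, 18, 19, 23, 24, 25, 26])
    (i := 19) (j := 26) (by decide) ?_
  exact ⟨⟨b2, [18], none⟩, ⟨neg b2, [16, 25], none⟩, rfl, rfl, rfl⟩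

lemma parity2 : Parity leaf2 := by
  refine check_sound (C := [0, 1, 2, 3, 5, 6, 7, 9, 10, 14, 15, 16, 20, 21, 22, 26, 27, 28, 29])
    (i := 22) (j := 29) (by decide) ?_
  exact ⟨⟨b3, [21], none⟩, ⟨neg b3, [16, 28], none⟩, rfl, rfl, rfl⟩

lemma parity3 : Parity leaf3 := by
  refine check_sound (C := [0, 1, 3, 4, 5, 6, 7, 9, 11, 12, 17, 18, 19, 20, 21, 22, 29, 30, 31, 32])
    (i := 22) (j := 32) (by decide) ?_
  exact ⟨⟨b3, [21], none⟩, ⟨neg b3, [19, 31], none⟩, rfl, rfl, rfl⟩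

lemma parity4 : Parity leaf4 := by
  refine check_sound (C := List.range 37)
    (i := 22) (j := 36) (by decide) ?_
  exact ⟨⟨b3, [21], none⟩, ⟨neg b3, [19, 35], none⟩, rfl, rfl, rfl⟩

/-- The formula has a tree with parity (which does not use the recursive rule). -/
lemma hasTree (X : Set Fm) : HasTree X Parity (neg PP) := by
  change TreeFrom X Parity [⟨neg (neg PP), [], none⟩]
  refine .step _ _ (.negNeg _ 0 _ PP rfl rfl) ?_
  refine .step _ _ (.conj _ 1 _ P1 (conj P2 (conj P3 (conj F12 (conj F13 (conj F23 F)))))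
    rfl rfl) ?_
  refine .step _ _ (.conj _ 3 _ P2 (conj P3 (conj F12 (conj F13 (conj F23 F)))) rfl rfl) ?_
  refine .step _ _ (.conj _ 5 _ P3 (conj F12 (conj F13 (conj F23 F))) rfl rfl) ?_
  refine .step _ _ (.conj _ 7 _ F12 (conj F13 (conj F23 F)) rfl rfl) ?_
  refine .step _ _ (.conj _ 9 _ F13 (conj F23 F) rfl rfl) ?_
  refine .step _ _ (.conj _ 11 _ F23 F rfl rfl) ?_
  change TreeFrom X Parity stem0
  refine .step _ _ (.counterCase _ 2 _ a1 (neg b1) rfl rfl) ?_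
  refine .step _ _ (.negNeg _ 15 _ b1 rfl rfl) ?_
  refine .step _ _ (.counterCase _ 4 _ a2 (neg b2) rfl rfl) ?_
  refine .step _ _ (.negNeg _ 18 _ b2 rfl rfl) ?_
  refine .step _ _ (.counterCase _ 6 _ a3 (neg b3) rfl rfl) ?_
  refine .step _ _ (.negNeg _ 21 _ b3 rfl rfl) ?_
  refine .step _ _ (.modusPonens _ 14 8 ⟨a1, [2], some 15⟩ ⟨F12, [7], none⟩ (imp a2 D12)
    rfl rfl rfl) ?_
  refine .step _ _ (.modusPonens _ 17 23 ⟨a2, [4], some 18⟩ ⟨imp a2 D12, [14, 8], none⟩ D12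
    rfl rfl rfl) ?_
  change TreeFrom X Parity stem1
  refine .fork _ _ _ (.disj _ 24 _ p12 (imp b1 (neg b2)) rfl rfl) ?_ ?_
  swap
  · refine .step _ _ (.modusPonens _ 16 25 ⟨b1, [15], none⟩ ⟨imp b1 (neg b2), [24], none⟩ (neg b2)
      rfl rfl rfl) ?_
    exact .leaf _ parity1
  refine .step _ _ (.modusPonens _ 14 10 ⟨a1, [2], some 15⟩ ⟨F13, [9], none⟩ (imp a3 D13)
    rfl rfl rfl) ?_
  refine .step _ _ (.modusPonens _ 20 26 ⟨a3, [6], some 21⟩ ⟨imp a3 D13, [14, 10], none⟩ D13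
    rfl rfl rfl) ?_
  change TreeFrom X Parity stem2
  refine .fork _ _ _ (.disj _ 27 _ p13 (imp b1 (neg b3)) rfl rfl) ?_ ?_
  swap
  · refine .step _ _ (.modusPonens _ 16 28 ⟨b1, [15], none⟩ ⟨imp b1 (neg b3), [27], none⟩ (neg b3)
      rfl rfl rfl) ?_
    exact .leaf _ parity2
  refine .step _ _ (.modusPonens _ 17 12 ⟨a2, [4], some 18⟩ ⟨F23, [11], none⟩ (imp a3 D23)
    rfl rfl rfl) ?_
  refine .step _ _ (.modusPonens _ 20 29 ⟨a3, [6], some 21⟩ ⟨imp a3 D23, [17, 12], none⟩ D23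
    rfl rfl rfl) ?_
  change TreeFrom X Parity stem3
  refine .fork _ _ _ (.disj _ 30 _ p23 (imp b2 (neg b3)) rfl rfl) ?_ ?_
  swap
  · refine .step _ _ (.modusPonens _ 19 31 ⟨b2, [18], none⟩ ⟨imp b2 (neg b3), [30], none⟩ (neg b3)
      rfl rfl rfl) ?_
    exact .leaf _ parity3
  refine .step _ _ (.modusPonens _ 25 13 ⟨p12, [24], none⟩ ⟨F, [11], none⟩ (imp p13 (imp p23 E))
    rfl rfl rfl) ?_
  refine .step _ _ (.modusPonens _ 28 32 ⟨p13, [27], none⟩
    ⟨imp p13 (imp p23 E), [25, 13], none⟩ (imp p23 E) rfl rfl rfl) ?_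
  refine .step _ _ (.modusPonens _ 31 33 ⟨p23, [30], none⟩ ⟨imp p23 E, [28, 32], none⟩ E
    rfl rfl rfl) ?_
  refine .step _ _ (.modusPonens _ 16 34 ⟨b1, [15], none⟩ ⟨E, [31, 33], none⟩ (imp b2 (neg b3))
    rfl rfl rfl) ?_
  refine .step _ _ (.modusPonens _ 19 35 ⟨b2, [18], none⟩ ⟨imp b2 (neg b3), [16, 34], none⟩
    (neg b3) rfl rfl rfl) ?_
  exact .leaf _ parity4

/-! ### the premises are true at the root -/

/-- A single block of kind `i`. -/
def single (i : ℕ) : Str where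
  B := Unit
  kind := fun _ => i
  dirty := fun _ _ => False
  two := fun _ _ h => absurd h (lt_irrefl _)
  three := fun _ _ _ h => absurd h (lt_irrefl _)

lemma one_single (i : ℕ) (s : Bool) : One (single i) s i {x | x.2 = s} := by
  refine ⟨(), rfl, ?_⟩
  rintro ⟨u, t⟩ h
  have h : t = s := h
  rw [h]
  rfl

lemma premise_one {a b : Fm} {i : ℕ} (ha : ∀ G X, Tr a G X ↔ One G false i X)
    (hb : ∀ G X, Tr b G X ↔ One G true i X) : Tr (neg (imp a (neg b))) emptyStr ∅ := by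
  intro h
  have h1 := h (single i) (emptyEmb _) {x | x.2 = false} ((ha _ _).mpr (one_single i false))
  refine h1 ((hb _ _).mpr ?_)
  refine One.mono ?_ (one_single i true)
  intro x hx
  have hx2 : ¬ x.2 = false := fun h2 => hx (Or.inr h2)
  change x.2 = true
  simpa using hx2

lemma premise_two {a a' b b' p : Fm} {i j : ℕ} (hij : i < j)
    (ha : ∀ G X, Tr a G X ↔ One G false i X) (ha' : ∀ G X, Tr a' G X ↔ One G false j X)
    (hb : ∀ G X, Tr b G X ↔ One G true i X) (hb' : ∀ G X, Tr b' G X ↔ One G true j X)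
    (hp : ∀ G X, Tr p G X ↔ Two G i j X) (X : Set emptyStr.U) :
    Tr (imp a (imp a' (disj p (imp b (neg b'))))) emptyStr X := by
  intro G₁ e₁ Y₁ h₁ G₂ e₂ Y₂ h₂
  obtain ⟨u, hu, hY₁⟩ := (ha _ _).mp h₁
  obtain ⟨v, hv, hY₂⟩ := (ha' _ _).mp h₂
  -- all units of the label
  have hlab : ∀ x ∈ e₂.u '' (e₁.u '' X ∪ Y₁) ∪ Y₂, x = (e₂.f u, false) ∨ x = (v, false) := by
    rintro x (⟨y, hy | hy, rfl⟩ | hx)
    · obtain ⟨⟨z, _⟩, _⟩ := hy
      exact z.elim
    · rw [hY₁ y hy]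
      exact Or.inl rfl
    · exact Or.inr (hY₂ x hx)
  have hu' : G₂.kind (e₂.f u) = i := by rw [e₂.kind]; exact hu
  by_cases hd : G₂.dirty (e₂.f u) v
  · right
    intro G₃ e₃ Y₃ h₃ h₄
    obtain ⟨w, hw, hY₃⟩ := (hb _ _).mp h₃
    obtain ⟨t, ht, hc⟩ := (hb' _ _).mp h₄
    obtain ⟨z, hz1, hz2⟩ := G₃.two (e₃.f (e₂.f u)) (e₃.f v)
      (by rw [e₃.kind, e₃.kind, hu', hv]; exact hij) ((e₃.dirty _ _).mpr hd)
    by_cases hz : (z, false) ∈ e₃.u '' (e₂.u '' (e₁.u '' X ∪ Y₁) ∪ Y₂) ∪ Y₃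
    · rcases hz with ⟨x, hx, hxz⟩ | hz
      · rcases hlab x hx with rfl | rfl
        · exact hz1 (Prod.mk.inj hxz).1.symm
        · exact hz2 (Prod.mk.inj hxz).1.symm
      · exact absurd (Prod.mk.inj (hY₃ _ hz)).2 (by simp)
    · exact absurd (Prod.mk.inj (hc _ hz)).2 (by simp)
  · left
    exact (hp _ _).mpr ⟨e₂.f u, v, hu', hv, hd, hlab⟩

lemma premise_three (X : Set emptyStr.U) : Tr F emptyStr X := by
  intro G₁ e₁ Y₁ h₁ G₂ e₂ Y₂ h₂ G₃ e₃ Y₃ h₃ G₄ e₄ Y₄ h₄ G₅ e₅ Y₅ h₅ h₆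
  obtain ⟨b₁, c₁, kb₁, kc₁, hd₁, hY₁⟩ := (h₁ : Two G₁ 0 1 Y₁)
  obtain ⟨b₂, c₂, kb₂, kc₂, hd₂, hY₂⟩ := (h₂ : Two G₂ 0 2 Y₂)
  obtain ⟨b₃, c₃, kb₃, kc₃, hd₃, hY₃⟩ := (h₃ : Two G₃ 1 2 Y₃)
  obtain ⟨b₄, kb₄, hY₄⟩ := (h₄ : One G₄ true 0 Y₄)
  obtain ⟨b₅, kb₅, hY₅⟩ := (h₅ : One G₅ true 1 Y₅)
  obtain ⟨b₆, kb₆, hY₆⟩ := (h₆ : One G₅ true 2 _)
  -- every block of `G₅` is one of three
  have hall : ∀ z : G₅.B, z = e₅.f b₄ ∨ z = b₅ ∨ z = b₆ := by
    intro z
    by_cases hz : (z, true) ∈ e₅.u '' (e₄.u '' (e₃.u '' (e₂.u '' (e₁.u '' X ∪ Y₁) ∪ Y₂) ∪ Y₃) ∪ Y₄)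
        ∪ Y₅
    · rcases hz with ⟨x, hx, hxz⟩ | hz
      · rcases hx with ⟨x', hx', rfl⟩ | hx
        · -- the units of the inner label are of the first sort
          exfalso
          have hs : x'.2 = false := by
            rcases hx' with ⟨x2, (⟨x3, (⟨⟨w, _⟩, _⟩ | hx3), rfl⟩ | hx2), rfl⟩ | hx'
            · exact w.elim
            · rcases hY₁ x3 hx3 with rfl | rfl <;> rfl
            · rcases hY₂ x2 hx2 with rfl | rfl <;> rfl
            · rcases hY₃ x' hx' with rfl | rfl <;> rfl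
          have h7 := (Prod.mk.inj hxz).2
          change x'.2 = true at h7
          rw [hs] at h7
          exact absurd h7 (by simp)
        · left
          rw [hY₄ x hx] at hxz
          exact (Prod.mk.inj hxz).1.symm
      · exact Or.inr (Or.inl (Prod.mk.inj (hY₅ _ hz)).1)
    · exact Or.inr (Or.inr (Prod.mk.inj (hY₆ _ hz)).1)
  have kb₄' : G₅.kind (e₅.f b₄) = 0 := by rw [e₅.kind]; exact kb₄
  -- blocks with the kinds `0`, `1`, `2`
  have z0 : ∀ z, G₅.kind z = 0 → z = e₅.f b₄ := by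
    intro z hz
    rcases hall z with h | h | h
    · exact h
    · rw [h, kb₅] at hz; exact absurd hz (by decide)
    · rw [h, kb₆] at hz; exact absurd hz (by decide)
  have z1 : ∀ z, G₅.kind z = 1 → z = b₅ := by
    intro z hz
    rcases hall z with h | h | h
    · rw [h, kb₄'] at hz; exact absurd hz (by decide)
    · exact h
    · rw [h, kb₆] at hz; exact absurd hz (by decide)
  have z2 : ∀ z, G₅.kind z = 2 → z = b₆ := by
    intro z hz
    rcases hall z with h | h | h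
    · rw [h, kb₄'] at hz; exact absurd hz (by decide)
    · rw [h, kb₅] at hz; exact absurd hz (by decide)
    · exact h
  have d01 : ¬ G₅.dirty (e₅.f b₄) b₅ := by
    rw [← z0 (e₅.f (e₄.f (e₃.f (e₂.f b₁)))) (by simp only [Emb.kind, kb₁]),
      ← z1 (e₅.f (e₄.f (e₃.f (e₂.f c₁)))) (by simp only [Emb.kind, kc₁])]
    simpa only [Emb.dirty] using hd₁
  have d02 : ¬ G₅.dirty (e₅.f b₄) b₆ := by
    rw [← z0 (e₅.f (e₄.f (e₃.f b₂))) (by simp only [Emb.kind, kb₂]),
      ← z2 (e₅.f (e₄.f (e₃.f c₂))) (by simp only [Emb.kind, kc₂])]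
    simpa only [Emb.dirty] using hd₂
  have d12 : ¬ G₅.dirty b₅ b₆ := by
    rw [← z1 (e₅.f (e₄.f b₃)) (by simp only [Emb.kind, kb₃]),
      ← z2 (e₅.f (e₄.f c₃)) (by simp only [Emb.kind, kc₃])]
    simpa only [Emb.dirty] using hd₃
  obtain ⟨z, hz1, hz2, hz3⟩ := G₅.three (e₅.f b₄) b₅ b₆ (by rw [kb₄', kb₅]; decide)
    (by rw [kb₅, kb₆]; decide) d01 d02 d12
  rcases hall z with h | h | h
  · exact hz1 h
  · exact hz2 h
  · exact hz3 h

lemma premises : Tr PP emptyStr ∅ := by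
  refine ⟨premise_one (i := 0) ?_ ?_, premise_one (i := 1) ?_ ?_, premise_one (i := 2) ?_ ?_,
    premise_two (i := 0) (j := 1) (by decide) ?_ ?_ ?_ ?_ ?_ _,
    premise_two (i := 0) (j := 2) (by decide) ?_ ?_ ?_ ?_ ?_ _,
    premise_two (i := 1) (j := 2) (by decide) ?_ ?_ ?_ ?_ ?_ _, premise_three _⟩
  all_goals exact fun G X => Iff.rfl

/-- The formula is not acceptable in the sense of strengthened parity. -/
lemma not_mem_Accs : neg PP ∉ Accs := by
  intro h
  have h1 : neg PP ∈ Valid := h Valid (fun ψ hψ => valid_of_tree ψ hψ)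
  refine h1 ?_
  rw [set_emptyStr ∅ᶜ]
  exact premises

lemma mem_Acc : neg PP ∈ Acc := fun X hX => hX _ (hasTree X)

lemma mem_DA : neg PP ∈ DA := hasTree ∅

/-! ### directly acceptable formulae are acceptable -/

lemma step_mono {X : Set Fm} {B B' : List Node} (h : Step ∅ B B') : Step X B B' := by
  cases h with
  | conj i n a b hi hn => exact .conj B i n a b hi hn
  | negDisj i n a b hi hn => exact .negDisj B i n a b hi hn
  | negNeg i n a hi hn => exact .negNeg B i n a hi hn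
  | modusPonens i j n m b hi hj hm => exact .modusPonens B i j n m b hi hj hm
  | counterCase i n a b hi hn => exact .counterCase B i n a b hi hn
  | recursive i n b hi hX => exact absurd hX (Set.notMem_empty _)

lemma tree_mono {X : Set Fm} {Q : List Node → Prop} {B : List Node} (h : TreeFrom ∅ Q B) :
    TreeFrom X Q B := by
  induction h with
  | leaf B h => exact .leaf B h
  | step B B' h _ ih => exact .step B B' (step_mono h) ih
  | fork B B₁ B₂ h _ _ ih₁ ih₂ => exact .fork B B₁ B₂ h ih₁ ih₂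

lemma DAs_subset : DAs ⊆ Accs := fun _ h X hX => hX _ (tree_mono h)

lemma not_mem_DAs : neg PP ∉ DAs := fun h => not_mem_Accs (DAs_subset h)

end Pool.Agent.Lib.MP_b8bcd1_lc.Rec
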